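import Pool.Agent.H20.RS.Pri

/-!
The fields `F'_s`: all `z ∈ K` such that, for some `e` prime to `N`, `g ^ (e * N ^ s)` fixes `z` for
all automorphisms `g` of `K` over `F`.
-/

set_option linter.style.haveILetI false

namespace RS

open Polynomial IntermediateField

variable {k K : Type*} [Field k] [Field K] [Algebra k K]

/-- all `z ∈ K` such that, for some `e` prime to `N`, `g ^ (e * N ^ s)` fixes `z` for all
automorphisms `g` of `K` over `F` -/
def priS (N s : ℕ) (F : IntermediateField k K) : IntermediateField k K where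
  carrier := {z | ∃ e, Nat.Coprime e N ∧ ∀ g ∈ F.fixingSubgroup, (g ^ (e * N ^ s)) z = z}
  mul_mem' := by
    rintro a b ⟨e, he, h⟩ ⟨e', he', h'⟩
    refine ⟨e * e', Nat.Coprime.mul_left he he', fun g hg => ?_⟩
    rw [map_mul]
    have h1 := fix_mul_left (h g hg) e'
    have h2 := fix_mul_right (h' g hg) e
    rw [mul_right_comm] at h1
    rw [← mul_assoc] at h2
    rw [h1, h2]
  one_mem' := ⟨1, Nat.coprime_one_left N, fun g _ => map_one _⟩
  add_mem' := by
    rintro a b ⟨e, he, h⟩ ⟨e', he', h'⟩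
    refine ⟨e * e', Nat.Coprime.mul_left he he', fun g hg => ?_⟩
    rw [map_add]
    have h1 := fix_mul_left (h g hg) e'
    have h2 := fix_mul_right (h' g hg) e
    rw [mul_right_comm] at h1
    rw [← mul_assoc] at h2
    rw [h1, h2]
  zero_mem' := ⟨1, Nat.coprime_one_left N, fun g _ => map_zero _⟩
  algebraMap_mem' := fun c => ⟨1, Nat.coprime_one_left N, fun g _ => AlgEquiv.commutes _ c⟩
  inv_mem' := by
    rintro a ⟨e, he, h⟩
    exact ⟨e, he, fun g hg => by rw [map_inv₀, h g hg]⟩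

theorem mem_priS {N s : ℕ} {F : IntermediateField k K} {z : K} : z ∈ priS N s F ↔
    ∃ e, Nat.Coprime e N ∧ ∀ g ∈ F.fixingSubgroup, (g ^ (e * N ^ s)) z = z := Iff.rfl

theorem le_priS (N s : ℕ) (F : IntermediateField k K) : F ≤ priS N s F := fun z hz =>
  mem_priS.2 ⟨1, Nat.coprime_one_left N, fun g hg =>
    ALG.mem_fs.1 (pow_mem hg _) z hz⟩

/-- the same exponent for the conjugates -/
theorem priS_conj {M : ℕ} {F : IntermediateField k K} {z : K}
    (hz : ∀ g ∈ F.fixingSubgroup, (g ^ M) z = z) {h : Gal(K/k)} (hh : h ∈ F.fixingSubgroup)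
    {g : Gal(K/k)} (hg : g ∈ F.fixingSubgroup) : (g ^ M) (h z) = h z := by
  have h1 := hz (h⁻¹ * g * h) (mul_mem (mul_mem (inv_mem hh) hg) hh)
  have h2 : (h⁻¹ * g * h) ^ M = h⁻¹ * g ^ M * h := by
    have h3 := conj_pow (i := M) (a := h⁻¹) (b := g)
    rwa [inv_inv] at h3
  rw [h2] at h1
  have h4 : h⁻¹ ((g ^ M) (h z)) = z := h1
  have h5 := congrArg h h4
  rwa [PX.apply_inv] at h5

theorem priS_stable {N s : ℕ} {F : IntermediateField k K} {h : Gal(K/k)}
    (hh : h ∈ F.fixingSubgroup) {z : K} (hz : z ∈ priS N s F) : h z ∈ priS N s F := by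
  obtain ⟨e, he, hez⟩ := mem_priS.1 hz
  exact mem_priS.2 ⟨e, he, fun g hg => priS_conj hez hh hg⟩

/-- one exponent for finitely many elements and all their conjugates -/
theorem priS_fin {N s r : ℕ} {F : IntermediateField k K} {u : Fin r → K}
    (hu : ∀ i, u i ∈ priS N s F) :
    ∃ e, Nat.Coprime e N ∧ ∀ g ∈ F.fixingSubgroup, ∀ h ∈ F.fixingSubgroup, ∀ i,
      (g ^ (e * N ^ s)) (h (u i)) = h (u i) := by
  classical
  choose e he hef using fun i => mem_priS.1 (hu i)
  refine ⟨∏ i, e i, Nat.Coprime.prod_left (fun i _ => he i), fun g hg h hh i => ?_⟩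
  obtain ⟨c, hc⟩ : e i ∣ ∏ i, e i := Finset.dvd_prod_of_mem e (Finset.mem_univ i)
  rw [hc, mul_right_comm]
  exact fix_mul_left (priS_conj (hef i) hh hg) c

theorem priS_mono {N s s' : ℕ} (h : s ≤ s') (F : IntermediateField k K) :
    priS N s F ≤ priS N s' F := by
  intro z hz
  obtain ⟨e, he, hez⟩ := mem_priS.1 hz
  refine mem_priS.2 ⟨e, he, fun g hg => ?_⟩
  obtain ⟨t, rfl⟩ := Nat.exists_eq_add_of_le h
  rw [pow_add, ← mul_assoc]
  exact fix_mul_left (hez g hg) _

end RS
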