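import Pool.Agent.H20.RS.CopVal

/-!
An element of `K` fixed by all `e * N ^ s`-th powers of the automorphisms over `F`, `e` prime to `N`:
its `c * N ^ s`-th power has the value of an element of `F`, for some `c` prime to `N`.

This is `RS.CopVal.main` (H20/RS/CopVal.lean, the case `s = 0`) with `N ^ (s + 1)` for `N`.
Proof. Let `c` be the minimal positive exponent with `w z ^ c ∈ w F`.  If `N ^ (s + 1)` does not
divide `c`, write `c = N ^ a * c'`, `a ≤ s`, `c'` prime to `N`: `w z ^ (c' * N ^ s) = w (b ^ (N ^ (s - a)))`.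
Otherwise `c = N ^ (s + 1) * m`, `f = z ^ m`, `M = N ^ (s + 1)`: `w f ^ M = w b`, and `w f ^ i ∉ w F` for
`0 < i < M`.  `β ^ M = b`, `u = f / β` has value 1 and `w (u - c0) < 1` for a `c0 ∈ k`, `c0 ≠ 0`.
Choose `s0 ∈ Aut(K/F)` moving `β ^ (N ^ s)` (an `N`-th root of `b`; if all fix it, then a `p`-power of
it is in `F`, contradiction as in the original); `s0 β = ζ β` with `ζ ^ M = 1`, `ζ ^ (N ^ s) ≠ 1`.
`w (s0 a) = w a` on `F(β)` (`CopVal.expand` and `CopVal.sum_eq` with `M` for `N`), conjugacy gives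
`ρ ∈ Aut(K/F(β))` with `g = s0 ρ` preserving `B`; `g β = ζ β`, `(g ^ (e * N ^ s)) f = f`,
`ζ ^ (e * N ^ s) ≠ 1` (`ζ ^ (N ^ s)` is an `N`-th root of 1, not 1, and `e` is prime to `N`), and the
end of the original proof applies verbatim with `e * N ^ s` for `e`.
-/

set_option linter.style.haveILetI false

namespace RS

open Polynomial IntermediateField

theorem CopValS.main {k K : Type*} [Field k] [IsAlgClosed k] [Field K] [IsAlgClosed K]
    [Algebra k K]
    (hconj : ∀ (V : IntermediateField k K), Algebra.IsAlgebraic V K → ∀ (B B' : ValuationSubring K),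
      (∀ z ∈ V, z ∈ B ↔ z ∈ B') → ∃ g ∈ V.fixingSubgroup, ∀ z : K, z ∈ B ↔ g z ∈ B')
    (F : IntermediateField k K) [Algebra.IsAlgebraic F K] (B : ValuationSubring K)
    (hB1 : ∀ c : k, c ≠ 0 → B.valuation (algebraMap k K c) = 1)
    (hB3 : ∀ z : K, B.valuation z = 1 → ∃ c : k, c ≠ 0 ∧ B.valuation (z - algebraMap k K c) < 1)
    (N : ℕ) (hN : N.Prime) (hNk : (N : k) ≠ 0) (s : ℕ) {z : K} (hz0 : z ≠ 0)
    (hz : ∃ e, Nat.Coprime e N ∧ ∀ g ∈ F.fixingSubgroup, (g ^ (e * N ^ s)) z = z) :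
    ∃ c : ℕ, Nat.Coprime c N ∧ ∃ b ∈ F, B.valuation z ^ (c * N ^ s) = B.valuation b := by
  classical
  set w := B.valuation with hw
  obtain ⟨e, heN, he⟩ := hz
  -- a minimal exponent
  have hex : ∃ c : ℕ, c ≠ 0 ∧ ∃ b ∈ F, w z ^ c = w b := by
    obtain ⟨P, hP, hPz⟩ := (Algebra.IsAlgebraic.isAlgebraic (R := F) z)
    obtain ⟨c, hc0, -, a, haF, -, hwa⟩ := DclVal.root w F P hP le_rfl hz0 hPz
    exact ⟨c, hc0, a, haF, hwa⟩
  set c := Nat.find hex with hc
  obtain ⟨hc0, b, hbF, hcb⟩ : c ≠ 0 ∧ ∃ b ∈ F, w z ^ c = w b := Nat.find_spec hex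
  have hmin : ∀ i, 0 < i → i < c → ∀ a ∈ F, w z ^ i ≠ w a := by
    intro i h0 hi a ha h
    exact Nat.find_min hex hi ⟨h0.ne', a, ha, h⟩
  obtain ⟨M, hM⟩ : ∃ M : ℕ, M = N ^ (s + 1) := ⟨_, rfl⟩
  have hM0 : 0 < M := by rw [hM]; exact pow_pos hN.pos _
  by_cases hNc : M ∣ c
  swap
  · obtain ⟨a, c', hc', hca⟩ := Nat.exists_eq_pow_mul_and_not_dvd hc0 N hN.one_lt.ne'
    have has : a ≤ s := by
      by_contra hlt
      push Not at hlt
      apply hNc
      rw [hM, hca]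
      exact Dvd.dvd.mul_right (pow_dvd_pow N hlt) _
    refine ⟨c', ((Nat.Prime.coprime_iff_not_dvd hN).2 hc').symm, b ^ N ^ (s - a),
      pow_mem hbF _, ?_⟩
    have h1 : c' * N ^ s = c * N ^ (s - a) := by
      rw [hca]
      have h2 : N ^ s = N ^ a * N ^ (s - a) := by
        rw [← pow_add]; congr 1; omega
      rw [h2]; ring
    rw [h1, pow_mul, hcb, ← map_pow]
  exfalso
  obtain ⟨m, hm⟩ := hNc
  have hm0 : 0 < m := by
    rcases Nat.eq_zero_or_pos m with h | h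
    · rw [h, mul_zero] at hm; exact absurd hm hc0
    · exact h
  set f : K := z ^ m with hf
  have hf0 : f ≠ 0 := pow_ne_zero _ hz0
  have hfN : w f ^ M = w b := by
    rw [hf, map_pow, ← pow_mul, mul_comm m M, ← hm, hcb]
  have hfi : ∀ i, 0 < i → i < M → ∀ a ∈ F, w f ^ i ≠ w a := by
    intro i h0 hi a ha h
    rw [hf, map_pow, ← pow_mul] at h
    refine hmin (m * i) (Nat.mul_pos hm0 h0) ?_ a ha h
    rw [hm, mul_comm M m]
    exact Nat.mul_lt_mul_of_pos_left hi hm0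
  obtain ⟨β, hβ⟩ := IsAlgClosed.exists_pow_nat_eq b hM0
  have hb0 : b ≠ 0 := by
    rw [← Valuation.ne_zero_iff w, ← hfN]
    exact pow_ne_zero _ ((Valuation.ne_zero_iff w).2 hf0)
  have hβ0 : β ≠ 0 := by
    intro h
    rw [h, zero_pow hM0.ne'] at hβ
    exact hb0 hβ.symm
  have hwβ0 : w β ≠ 0 := (Valuation.ne_zero_iff w).2 hβ0
  set u : K := f / β with hu
  have hwu : w u = 1 := by
    have h1 : w u ^ M = 1 := by
      rw [hu, map_div₀, div_pow, hfN, ← map_pow, hβ, div_self ((Valuation.ne_zero_iff w).2 hb0)]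
    exact (pow_eq_one_iff.1 h1).resolve_right hM0.ne'
  have hwβ : w β = w f := by
    have h1 : w f = w u * w β := by
      rw [← map_mul, hu, div_mul_cancel₀ _ hβ0]
    rw [h1, hwu, one_mul]
  have hβi : ∀ i, 0 < i → i < M → ∀ a ∈ F, w β ^ i ≠ w a := by
    rw [hwβ]; exact hfi
  obtain ⟨c0, hc00, hc0u⟩ := hB3 u hwu
  -- an automorphism moving `β ^ (N ^ s)`
  have hγN : (β ^ N ^ s) ^ N = b := by
    rw [← pow_mul, ← pow_succ, ← hM, hβ]
  obtain ⟨s0, hs0F, hs0β⟩ : ∃ s0 ∈ F.fixingSubgroup, s0 (β ^ N ^ s) ≠ β ^ N ^ s := by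
    by_contra hcon
    push Not at hcon
    obtain ⟨p, hp⟩ := ExpChar.exists k
    obtain ⟨a, ha⟩ := ALG.pow_mem_of_fixed p F hcon
    have hNp : ¬ N ∣ p ^ a := by
      intro h
      have h1 : N ∣ p := hN.dvd_of_dvd_pow h
      rcases hp with _ | ⟨hpp⟩
      · exact hN.one_lt.ne' (Nat.dvd_one.1 h1)
      · have h2 : N = p := (Nat.prime_dvd_prime_iff_eq hN hpp).1 h1
        apply hNk
        rw [h2]
        exact CharP.cast_eq_zero k p
    have hr0 : 0 < p ^ a % N := Nat.pos_of_ne_zero fun h => hNp (Nat.dvd_of_mod_eq_zero h)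
    refine hβi (N ^ s * (p ^ a % N)) (Nat.mul_pos (pow_pos hN.pos _) hr0) ?_
      ((β ^ N ^ s) ^ p ^ a / b ^ (p ^ a / N)) (F.div_mem ha (pow_mem hbF _)) ?_
    · rw [hM, pow_succ]
      exact Nat.mul_lt_mul_of_pos_left (Nat.mod_lt _ hN.pos) (pow_pos hN.pos _)
    · have h3 : (β ^ N ^ s) ^ p ^ a = β ^ (N ^ s * (p ^ a % N)) * b ^ (p ^ a / N) := by
        rw [pow_mul, ← hγN, ← pow_mul (β ^ N ^ s) N, ← pow_add, Nat.mod_add_div]
      rw [h3, mul_div_cancel_right₀ _ (pow_ne_zero _ hb0), map_pow]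
  obtain ⟨ζ, hζ⟩ := ALG.exists_algebraMap_of_pow (k := k) (a := s0 β) (b := β) M hM0 (by
    rw [← map_pow, hβ, ALG.mem_fs.1 hs0F _ hbF])
  have hζ1 : ζ ^ N ^ s ≠ 1 := by
    intro h
    apply hs0β
    rw [map_pow, hζ, mul_pow, ← map_pow, h, map_one, one_mul]
  have hζN : ζ ^ M = 1 := by
    have h1 : (s0 β) ^ M = β ^ M := by rw [← map_pow, hβ, ALG.mem_fs.1 hs0F _ hbF]
    rw [hζ, mul_pow] at h1
    have h2 : (algebraMap k K ζ) ^ M = 1 := mul_right_cancel₀ (pow_ne_zero M hβ0) (by rw [h1, one_mul])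
    rw [← map_pow] at h2
    exact (algebraMap k K).injective (by rw [h2, map_one])
  have hζ0 : ζ ≠ 0 := by
    rintro rfl
    rw [zero_pow hM0.ne'] at hζN
    exact zero_ne_one hζN
  -- the valuation ring and its image agree on `F(β)`
  set V : IntermediateField k K := (adjoin F {β}).restrictScalars k with hV
  have hFV : F ≤ V := fun v hv => by
    rw [hV, mem_restrictScalars]
    exact (adjoin F {β}).algebraMap_mem ⟨v, hv⟩
  have hβV : β ∈ V := by
    rw [hV, mem_restrictScalars]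
    exact mem_adjoin_simple_self F β
  have hVal : ∀ a ∈ V, w (s0 a) = w a := by
    intro a ha
    obtain ⟨q, hq, rfl⟩ := CopVal.expand F hM0 hbF hβ ha
    rw [map_sum]
    symm
    refine CopVal.sum_eq w (Finset.range M) ⟨0, Finset.mem_range.2 hM0⟩ _ _ ?_ ?_
    · intro i hi
      rw [map_mul, map_mul, map_mul, map_pow, map_pow, hζ, ALG.mem_fs.1 hs0F _ (hq i), map_pow,
        map_mul, hB1 ζ hζ0, one_mul]
    · intro i hi j hj hij hti h
      have hqi : q i ≠ 0 := left_ne_zero_of_mul hti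
      have hqj : q j ≠ 0 := by
        intro hj0
        rw [hj0, zero_mul, map_zero] at h
        exact hti ((Valuation.zero_iff w).1 h)
      have key : ∀ i j : ℕ, i < M → j < M → i < j → q i ≠ 0 → q j ≠ 0 →
          w (q i * β ^ i) ≠ w (q j * β ^ j) := by
        intro i j hi hj hlt hqi hqj h
        refine hβi (j - i) (by omega) (by omega) (q i / q j) (F.div_mem (hq i) (hq j)) ?_
        rw [map_div₀, eq_div_iff ((Valuation.ne_zero_iff w).2 hqj)]
        rw [map_mul, map_mul, map_pow, map_pow] at h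
        have h1 : w β ^ j = w β ^ (j - i) * w β ^ i := by
          rw [← pow_add]; congr 1; omega
        rw [h1] at h
        apply mul_right_cancel₀ (pow_ne_zero i hwβ0)
        rw [h]
        exact mul_right_comm _ _ _ |>.trans (by rw [mul_comm (w β ^ (j - i) * w β ^ i)])
      rcases lt_or_gt_of_ne hij with hlt | hlt
      · exact key i j (Finset.mem_range.1 hi) (Finset.mem_range.1 hj) hlt hqi hqj h
      · exact key j i (Finset.mem_range.1 hj) (Finset.mem_range.1 hi) hlt hqj hqi h.symm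
  have hVK : Algebra.IsAlgebraic V K := by
    refine ⟨fun y => ?_⟩
    obtain ⟨P, hP, hPy⟩ := (Algebra.IsAlgebraic.isAlgebraic (R := F) y)
    refine ⟨P.map (inclusion hFV).toRingHom, ?_, ?_⟩
    · rwa [Ne, Polynomial.map_eq_zero]
    · rw [aeval_def, eval₂_map]
      exact hPy
  obtain ⟨ρ, hρV, hρ⟩ := hconj V hVK B (B.comap (s0 : K →+* K)) (by
    intro y hy
    rw [ValuationSubring.mem_comap, ← B.valuation_le_one_iff, ← B.valuation_le_one_iff]
    change w y ≤ 1 ↔ w (s0 y) ≤ 1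
    rw [hVal y hy])
  set g : Gal(K/k) := s0 * ρ with hg
  have hgF : g ∈ F.fixingSubgroup := by
    refine mul_mem hs0F ?_
    rw [ALG.mem_fs]
    exact fun y hy => ALG.mem_fs.1 hρV y (hFV hy)
  have hgβ : g β = algebraMap k K ζ * β := by
    rw [hg, AlgEquiv.mul_apply, ALG.mem_fs.1 hρV β hβV, hζ]
  have hgB : ∀ y : K, y ∈ B ↔ g y ∈ B := by
    intro y
    rw [hρ y, ValuationSubring.mem_comap]
    rfl
  have hgeB : ∀ n : ℕ, ∀ y : K, y ∈ B ↔ (g ^ n) y ∈ B := by
    intro n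
    induction n with
    | zero => intro y; simp
    | succ n ih =>
      intro y
      rw [pow_succ, AlgEquiv.mul_apply, ← ih (g y), ← hgB y]
  have hgeβ : ∀ n : ℕ, (g ^ n) β = algebraMap k K (ζ ^ n) * β := by
    intro n
    induction n with
    | zero => simp
    | succ n ih =>
      rw [pow_succ, AlgEquiv.mul_apply, hgβ, map_mul, AlgEquiv.commutes, ih, ← mul_assoc, ← map_mul,
        ← pow_succ']
  have hsz : (g ^ (e * N ^ s)) z = z := he g hgF
  have hsf : (g ^ (e * N ^ s)) f = f := by rw [hf, map_pow, hsz]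
  have hsβ := hgeβ (e * N ^ s)
  have hζe : ζ ^ (e * N ^ s) ≠ 1 := by
    intro h
    have h0 : (ζ ^ N ^ s) ^ N = 1 := by rw [← pow_mul, ← pow_succ, ← hM, hζN]
    have h' : (ζ ^ N ^ s) ^ e = 1 := by rw [← pow_mul, mul_comm, h]
    have h1 := pow_gcd_eq_one.2 ⟨h', h0⟩
    rw [Nat.Coprime.gcd_eq_one heN, pow_one] at h1
    exact hζ1 h1
  have hζe0 : ζ ^ (e * N ^ s) ≠ 0 := pow_ne_zero _ hζ0
  have hsu : (g ^ (e * N ^ s)) u = algebraMap k K (ζ ^ (e * N ^ s))⁻¹ * u := by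
    rw [hu, map_div₀, hsf, hsβ, map_inv₀]
    have h1 : algebraMap k K (ζ ^ (e * N ^ s)) ≠ 0 := (_root_.map_ne_zero _).2 hζe0
    field_simp
  have hlt : w ((g ^ (e * N ^ s)) (u - algebraMap k K c0)) < 1 := by
    rw [hw, CopVal.lt_one_iff] at hc0u ⊢
    rcases hc0u with h | h
    · left
      rw [h, map_zero]
    · right
      rw [← map_inv₀, ← hgeB (e * N ^ s)]
      exact h
  rw [map_sub, AlgEquiv.commutes, hsu] at hlt
  have hdiff : w ((algebraMap k K ((ζ ^ (e * N ^ s))⁻¹ - 1)) * u) < 1 := by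
    have h1 : algebraMap k K ((ζ ^ (e * N ^ s))⁻¹ - 1) * u =
        (algebraMap k K (ζ ^ (e * N ^ s))⁻¹ * u - algebraMap k K c0) - (u - algebraMap k K c0) := by
      rw [map_sub, map_one]; ring
    rw [h1]
    exact (w.map_sub _ _).trans_lt (max_lt hlt hc0u)
  rw [map_mul, hwu, mul_one, hB1 _ (by
    rw [sub_ne_zero]
    intro h
    apply hζe
    rw [← inv_inv (ζ ^ (e * N ^ s)), h, inv_one])] at hdiff
  exact lt_irrefl _ hdiff

theorem exists_coprime_valS {k K : Type*} [Field k] [IsAlgClosed k] [Field K] [IsAlgClosed K]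
    [Algebra k K] {n : ℕ} {x : Fin n → K} (hx : IsTranscendenceBasis k x) (B : ValuationSubring K)
    (hB1 : ∀ c : k, c ≠ 0 → B.valuation (algebraMap k K c) = 1)
    (hB3 : ∀ z : K, B.valuation z = 1 → ∃ c : k, c ≠ 0 ∧ B.valuation (z - algebraMap k K c) < 1)
    (N : ℕ) (hN : N.Prime) (hNk : (N : k) ≠ 0) (s : ℕ) {z : K} (hz0 : z ≠ 0)
    (hz : ∃ e, Nat.Coprime e N ∧
      ∀ g ∈ (IntermediateField.adjoin k (Set.range x)).fixingSubgroup,
        (g ^ (e * N ^ s)) z = z) :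
    ∃ c : ℕ, Nat.Coprime c N ∧
      ∃ b ∈ IntermediateField.adjoin k (Set.range x),
        B.valuation z ^ (c * N ^ s) = B.valuation b := by
  obtain ⟨p, hp⟩ := ExpChar.exists k
  haveI : Algebra.IsAlgebraic (IntermediateField.adjoin k (Set.range x)) K := hx.isAlgebraic_field
  refine CopValS.main (fun V hV B B' h => ?_) _ B hB1 hB3 N hN hNk s hz0 hz
  refine exists_conj_val p V ?_ B B' h
  rw [eq_top_iff]
  intro y _
  rw [ALG.mem_ac]
  exact hV.isAlgebraic y

end RS
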