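import Pool.Agent.H20.RS.IndepCop
import Pool.Agent.H20.RS.ResVal
import Pool.Agent.H20.RS.Inn
import Pool.Agent.H20.RT.Pri
import Pool.Agent.H20.RT.Val

/-!
Independence of Kummer generators over `F'_s`.

Proof. `indep_of_kummer_each`: as `RS.indep_of_kummer_cop` (H20/RS/IndepCop.lean); there the
field `L` is used only through `hsm (h j) (hh j) (hh0 j)`, which is now the hypothesis `hsm j`.
`indep_of_pow`: `g` is independent if its `M`-th powers are (the polynomial ring is integral over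
the one in the `X j ^ M`, so an ideal which meets the latter in zero is zero).
`indep_priS`: take `B` from `exists_val_res hx` (ResVal.lean).  Let `x' l ^ (N ^ s) = x l` and
`x'_j ^ Q_j = g_j * h_j ^ N` with `h_j ∈ F'_s`.  Raise to the power `N ^ s`:
`x_j ^ Q_j = (g_j ^ (N ^ s)) * (h_j ^ (N ^ s)) ^ N`; by `exists_coprime_valS` the element `h_j ^ (N ^ s)`
satisfies `hsm`; so the `g_j ^ (N ^ s)` are independent, and the `g_j` too.
-/

set_option linter.style.haveILetI false

namespace RS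

open MvPolynomial

/-- `indep_of_kummer_cop` with the hypothesis on the values of the `h j` only -/
theorem indep_of_kummer_each {k K : Type*} [Field k] [Field K] [Algebra k K] {m n : ℕ}
    {x : Fin n → K} (hx : AlgebraicIndependent k x) (B : ValuationSubring K)
    (hB1 : ∀ c : k, c ≠ 0 → B.valuation (algebraMap k K c) = 1)
    (hB2 : ∀ a b : MvPolynomial (Fin n) k, a ≠ 0 → b ≠ 0 →
      B.valuation (MvPolynomial.aeval x a) = B.valuation (MvPolynomial.aeval x b) →
      (MonomialOrder.lex : MonomialOrder (Fin n)).degree a =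
        (MonomialOrder.lex : MonomialOrder (Fin n)).degree b)
    (ℓ : ℕ) (e : Fin m → Fin n) (he : Function.Injective e) (hℓ : ℓ.Prime)
    (Q : Fin m → ℕ) (hQ : ∀ j, Nat.Coprime ℓ (Q j)) (g h : Fin m → K)
    (hg0 : ∀ j, g j ≠ 0) (hh0 : ∀ j, h j ≠ 0)
    (hsm : ∀ j, ∃ c : ℕ, Nat.Coprime c ℓ ∧
      ∃ b ∈ IntermediateField.adjoin k (Set.range x), B.valuation (h j) ^ c = B.valuation b)
    (heq : ∀ j, x (e j) ^ Q j = g j * h j ^ ℓ) : AlgebraicIndependent k g := by
  classical
  have hinj : Function.Injective (aeval x : MvPolynomial (Fin n) k →ₐ[k] K) :=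
    algebraicIndependent_iff_injective_aeval.1 hx
  -- a common smooth exponent
  choose c₀ hc₀ b₀ hb₀ hcb₀ using fun j => hsm j
  set c : ℕ := ∏ j, c₀ j with hc
  have hcℓ : Nat.Coprime ℓ c := Nat.Coprime.prod_right (fun j _ => (hc₀ j).symm)
  have hb : ∀ j, ∃ b ∈ IntermediateField.adjoin k (Set.range x),
      B.valuation (h j) ^ c = B.valuation b := by
    intro j
    refine ⟨b₀ j ^ (∏ i ∈ Finset.univ.erase j, c₀ i), pow_mem (hb₀ j) _, ?_⟩
    rw [map_pow, ← hcb₀ j, ← pow_mul, Finset.mul_prod_erase _ _ (Finset.mem_univ j)]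
  choose b hbF hcb using hb
  choose A D hAD using fun j => (IntermediateField.mem_adjoin_range_iff k x (b j)).1 (hbF j)
  have hv0 : ∀ j, B.valuation (b j) ≠ 0 := by
    intro j
    rw [← hcb j]
    exact pow_ne_zero _ ((B.valuation.ne_zero_iff).2 (hh0 j))
  have hb0 : ∀ j, b j ≠ 0 := fun j => (B.valuation.ne_zero_iff).1 (hv0 j)
  have hA0' : ∀ j, aeval x (A j) ≠ 0 := fun j hz => hb0 j (by rw [hAD, hz, zero_div])
  have hD0' : ∀ j, aeval x (D j) ≠ 0 := fun j hz => hb0 j (by rw [hAD, hz, div_zero])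
  have hA0 : ∀ j, A j ≠ 0 := fun j hz => hA0' j (by rw [hz, map_zero])
  have hD0 : ∀ j, D j ≠ 0 := fun j hz => hD0' j (by rw [hz, map_zero])
  let E : Fin m → MvPolynomial (Fin n) k := fun j => X (e j) ^ (Q j * c) * D j ^ ℓ
  have hE0 : ∀ j, E j ≠ 0 := fun j =>
    mul_ne_zero (pow_ne_zero _ (X_ne_zero _)) (pow_ne_zero _ (hD0 j))
  have hval : ∀ j, B.valuation (g j) ^ c * B.valuation (aeval x (A j)) ^ ℓ =
      B.valuation (aeval x (E j)) := by
    intro j
    have h1 : B.valuation (aeval x (A j)) =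
        B.valuation (h j) ^ c * B.valuation (aeval x (D j)) := by
      rw [hcb j, hAD, ← map_mul, div_mul_cancel₀ _ (hD0' j)]
    have h2 : B.valuation (x (e j)) ^ (Q j * c) =
        B.valuation (g j) ^ c * (B.valuation (h j) ^ c) ^ ℓ := by
      rw [pow_mul, ← map_pow, heq j, map_mul, map_pow, mul_pow, ← pow_mul, ← pow_mul,
        mul_comm ℓ c]
    simp only [E]
    rw [map_mul, map_pow, map_pow, map_mul, map_pow, map_pow, aeval_X, h2, h1, mul_pow,
      mul_assoc]
  rw [algebraicIndependent_iff]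
  intro P hP
  by_contra hP0
  have hsum : ∑ α ∈ P.support, algebraMap k K (coeff α P) * ∏ j, g j ^ α j = 0 := by
    rw [← hP, aeval_def, eval₂_eq']
  have hcoef : ∀ α ∈ P.support, coeff α P ≠ 0 := fun α hα => mem_support_iff.1 hα
  obtain ⟨α, hα, β, hβ, hαβ, hv⟩ := exists_val_eq_of_sum_eq_zero B.valuation P.support (by
    rw [Finset.nonempty_iff_ne_empty]; simpa using hP0)
    (fun α => algebraMap k K (coeff α P) * ∏ j, g j ^ α j)
    (fun α hα => mul_ne_zero ((map_ne_zero _).2 (hcoef α hα))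
      (Finset.prod_ne_zero_iff.2 (fun j _ => pow_ne_zero _ (hg0 j)))) hsum
  rw [map_mul, map_mul, hB1 _ (hcoef α hα), hB1 _ (hcoef β hβ), one_mul, one_mul, map_prod,
    map_prod] at hv
  simp only [map_pow] at hv
  -- compare degrees
  have hkey : ∀ α : Fin m →₀ ℕ, ∀ β : Fin m →₀ ℕ,
      B.valuation (aeval x (∏ j, (E j ^ α j * A j ^ (ℓ * β j)))) =
      (∏ j, B.valuation (g j) ^ α j) ^ c *
        ∏ j, B.valuation (aeval x (A j)) ^ (ℓ * (α j + β j)) := by
    intro α β
    rw [map_prod, map_prod, ← Finset.prod_pow, ← Finset.prod_mul_distrib]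
    apply Finset.prod_congr rfl
    intro j _
    rw [map_mul, map_pow, map_pow, map_mul, map_pow, map_pow, ← hval j, mul_pow, ← pow_mul,
      ← pow_mul, ← pow_mul, mul_assoc, ← pow_add, mul_comm c (α j), ← mul_add]
  have hne : ∀ α β : Fin m →₀ ℕ, ∀ j ∈ (Finset.univ : Finset (Fin m)),
      E j ^ α j * A j ^ (ℓ * β j) ≠ 0 := fun α β j _ =>
    mul_ne_zero (pow_ne_zero _ (hE0 j)) (pow_ne_zero _ (hA0 j))
  have hdeg := hB2 (∏ j, (E j ^ α j * A j ^ (ℓ * β j))) (∏ j, (E j ^ β j * A j ^ (ℓ * α j)))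
    (Finset.prod_ne_zero_iff.2 (hne α β)) (Finset.prod_ne_zero_iff.2 (hne β α)) (by
      rw [hkey, hkey, hv]
      congr 1
      apply Finset.prod_congr rfl
      intro j _
      rw [add_comm])
  let mo : MonomialOrder (Fin n) := MonomialOrder.lex
  have hE : ∀ j, mo.degree (E j) = (Q j * c) • Finsupp.single (e j) 1 + ℓ • mo.degree (D j) := by
    intro j
    simp only [E]
    rw [mo.degree_mul (pow_ne_zero _ (X_ne_zero _)) (pow_ne_zero _ (hD0 j)), mo.degree_pow,
      mo.degree_pow, mo.degree_X]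
  have hdegT : ∀ α β : Fin m →₀ ℕ, mo.degree (∏ j, (E j ^ α j * A j ^ (ℓ * β j))) =
      ∑ j, (α j • ((Q j * c) • Finsupp.single (e j) 1 + ℓ • mo.degree (D j)) +
        (ℓ * β j) • mo.degree (A j)) := by
    intro α β
    rw [mo.degree_prod (hne α β)]
    apply Finset.sum_congr rfl
    intro j _
    rw [mo.degree_mul (pow_ne_zero _ (hE0 j)) (pow_ne_zero _ (hA0 j)), mo.degree_pow,
      mo.degree_pow, hE]
  have hdeg' : mo.degree (∏ j, (E j ^ α j * A j ^ (ℓ * β j))) =
      mo.degree (∏ j, (E j ^ β j * A j ^ (ℓ * α j))) := hdeg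
  rw [hdegT, hdegT] at hdeg'
  let ν : Fin m → Fin n → ℤ := fun j i => (if e j = i then ((Q j * c : ℕ) : ℤ) else 0) +
    ℓ * ((mo.degree (D j) i : ℤ) - (mo.degree (A j) i : ℤ))
  have hfin := ALG.eq_zero_of_descent e he ℓ hℓ.two_le (fun j => Q j * c)
    (fun j => Nat.Coprime.mul_right (hQ j) hcℓ) ν (fun j i => ⟨_, rfl⟩)
    (fun j => (α j : ℤ) - (β j : ℤ)) (by
      intro i
      have h2 := congrArg (fun f : Fin n →₀ ℕ => ((f i : ℕ) : ℤ)) hdeg'
      simp only [Finsupp.coe_finsetSum, Finset.sum_apply, Finsupp.add_apply,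
        Finsupp.smul_apply, Finsupp.single_apply, smul_eq_mul, Nat.cast_sum, Nat.cast_add,
        Nat.cast_mul, Nat.cast_ite, Nat.cast_zero, mul_ite, mul_one,
        mul_zero] at h2
      have h3 := sub_eq_zero.2 h2
      rw [← Finset.sum_sub_distrib] at h3
      rw [← h3]
      apply Finset.sum_congr rfl
      intro j _
      simp only [ν]
      push_cast
      split_ifs <;> ring)
  apply hαβ
  ext j
  have h2 := hfin j
  omega

private theorem IndS_bot {R S : Type*} [CommRing R] [CommRing S] [Nontrivial R] [IsDomain S]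
    (f : R →+* S) (hf : f.IsIntegral) (I : Ideal S) (h : I.comap f = ⊥) : I = ⊥ :=
  let _ : Algebra R S := f.toAlgebra
  have : Algebra.IsIntegral R S := ⟨hf⟩
  Ideal.eq_bot_of_comap_eq_bot (R := R) h

theorem indep_of_pow {k K : Type*} [Field k] [Field K] [Algebra k K] {m : ℕ} {g : Fin m → K}
    {M : ℕ} (hM : 1 ≤ M) (h : AlgebraicIndependent k (fun j => g j ^ M)) :
    AlgebraicIndependent k g := by
  classical
  rw [algebraicIndependent_iff_injective_aeval]
  let ψ : MvPolynomial (Fin m) k →ₐ[k] MvPolynomial (Fin m) k := aeval (fun j => X j ^ M)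
  have hψ : ∀ f : MvPolynomial (Fin m) k, aeval g (ψ f) = aeval (fun j => g j ^ M) f := by
    intro f
    have h1 : (aeval g : MvPolynomial (Fin m) k →ₐ[k] K).comp ψ =
        aeval (fun j => g j ^ M) := by
      apply MvPolynomial.algHom_ext
      intro j
      rw [AlgHom.comp_apply, aeval_X, aeval_X, map_pow, aeval_X]
    exact AlgHom.congr_fun h1 f
  have hint : ψ.toRingHom.IsIntegral := by
    intro f
    induction f using MvPolynomial.induction_on with
    | C c =>
      have h1 : C c = ψ.toRingHom (C c) := (ψ.commutes c).symm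
      rw [h1]
      exact RingHom.isIntegralElem_map _
    | add f f' hf hf' => exact RingHom.IsIntegralElem.add _ hf hf'
    | mul_X f j hf =>
      refine RingHom.IsIntegralElem.mul _ hf ?_
      refine ⟨Polynomial.X ^ M - Polynomial.C (X j), Polynomial.monic_X_pow_sub_C _ (by omega), ?_⟩
      rw [Polynomial.eval₂_sub, Polynomial.eval₂_pow, Polynomial.eval₂_X, Polynomial.eval₂_C]
      have h1 : ψ.toRingHom (X j) = X j ^ M := aeval_X _ _
      rw [h1, sub_self]
  have hbot := IndS_bot ψ.toRingHom hint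
    (RingHom.ker (aeval g : MvPolynomial (Fin m) k →ₐ[k] K)) (by
      rw [eq_bot_iff]
      intro f hf
      have h1 : aeval g (ψ f) = 0 := hf
      rw [hψ] at h1
      exact (algebraicIndependent_iff.1 h) f h1)
  exact (RingHom.injective_iff_ker_eq_bot _).2 hbot

theorem indep_priS {k K : Type*} [Field k] [IsAlgClosed k] [Field K] [IsAlgClosed K] [Algebra k K]
    {m n : ℕ} (hmn : m ≤ n) {x x' : Fin n → K} (hx : IsTranscendenceBasis k x) {N : ℕ}
    (hN : N.Prime) (hNk : (N : k) ≠ 0) (s : ℕ) (hxx' : ∀ l, x' l ^ (N ^ s) = x l) :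
    IndepI hmn x' (priS N s (IntermediateField.adjoin k (Set.range x))) N := by
  obtain ⟨B, hB1, hB2, hB3⟩ := exists_val_res (k := k) hx
  have hN1 : 1 ≤ N ^ s := Nat.one_le_pow _ _ hN.pos
  intro Q g h hQ hh hg0 hh0 heq
  refine indep_of_pow hN1 ?_
  refine indep_of_kummer_each hx.1 B hB1 hB2 N (Fin.castLE hmn) (Fin.castLE_injective hmn) hN Q hQ
    (fun j => g j ^ N ^ s) (fun j => h j ^ N ^ s) (fun j => pow_ne_zero _ (hg0 j))
    (fun j => pow_ne_zero _ (hh0 j)) (fun j => ?_) (fun j => ?_)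
  · obtain ⟨c, hc, b, hb, hcb⟩ := exists_coprime_valS hx B hB1 hB3 N hN hNk s (hh0 j)
      (mem_priS.1 (hh j))
    refine ⟨c, hc, b, hb, ?_⟩
    rw [← hcb, map_pow, ← pow_mul, mul_comm]
  · have h1 : x (Fin.castLE hmn j) ^ Q j = (x' (Fin.castLE hmn j) ^ Q j) ^ N ^ s := by
      rw [← hxx', ← pow_mul, ← pow_mul, mul_comm]
    rw [h1, heq j, mul_pow, ← pow_mul, ← pow_mul, mul_comm (N ^ s) N]

end RS
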