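import Pool.Agent.H20.RT.Pri

/-!
The fields `F'_s` exhaust `K` and contain the finite Galois extensions of `F` whose group has no
element of order `N ^ (s + 1)`.
-/

set_option linter.style.haveILetI false

namespace RS

open Polynomial IntermediateField

variable {k K : Type*} [Field k] [Field K] [Algebra k K]

theorem exists_mem_priS {N : ℕ} (hN : N.Prime) (F : IntermediateField k K)
    [Algebra.IsAlgebraic F K] (z : K) : ∃ s, z ∈ priS N s F := by
  classical
  obtain ⟨P, hP0, hP⟩ := Algebra.IsAlgebraic.isAlgebraic (R := F) z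
  set f : K[X] := P.map (algebraMap F K) with hf
  have hf0 : f ≠ 0 := by
    rw [hf]
    exact (Polynomial.map_ne_zero_iff (algebraMap F K).injective).2 hP0
  have hfz : f.eval z = 0 := by
    rw [hf, eval_map_algebraMap]
    exact hP
  obtain ⟨s, e, he, hse⟩ := Nat.exists_eq_pow_mul_and_not_dvd
    (Nat.factorial_ne_zero f.natDegree) N hN.ne_one
  refine ⟨s, mem_priS.2 ⟨e, ?_, fun g hg => ?_⟩⟩
  · rw [Nat.coprime_comm]
    exact (Nat.Prime.coprime_iff_not_dvd hN).2 he
  · rw [mul_comm, ← hse]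
    refine pow_factorial_fix (R := f.roots.toFinset) (fun v hv => ?_) ?_ ?_
    · rw [Multiset.mem_toFinset, mem_roots hf0] at hv ⊢
      have h2 : f.map (((g : Gal(K/k)) : K →ₐ[k] K) : K →+* K) = f := by
        ext i
        rw [coeff_map, hf, coeff_map]
        exact ALG.mem_fs.1 hg _ (P.coeff i).2
      have h3 := eval₂_hom (p := f) (((g : Gal(K/k)) : K →ₐ[k] K) : K →+* K) v
      have hv' : f.eval v = 0 := hv
      rw [hv', map_zero, ← eval_map, h2] at h3
      exact h3
    · exact (Multiset.toFinset_card_le _).trans (card_roots' f)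
    · rw [Multiset.mem_toFinset, mem_roots hf0]
      exact hfz

theorem galois_le_priS {N s : ℕ} (hN : N.Prime) {F : IntermediateField k K}
    (L : IntermediateField F K) [FiniteDimensional F L] [IsGalois F L]
    (hL : ∀ σ : Gal(L/F), ¬ N ^ (s + 1) ∣ orderOf σ) :
    L.restrictScalars k ≤ priS N s F := by
  classical
  have hex : ∀ σ : Gal(L/F), ∃ m : ℕ, Nat.Coprime m N ∧ orderOf σ ∣ m * N ^ s := by
    intro σ
    have h0 : orderOf σ ≠ 0 := (orderOf_pos σ).ne'
    obtain ⟨a, m, hm, ham⟩ := Nat.exists_eq_pow_mul_and_not_dvd h0 N hN.ne_one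
    refine ⟨m, ?_, ?_⟩
    · rw [Nat.coprime_comm]
      exact (Nat.Prime.coprime_iff_not_dvd hN).2 hm
    · have has : a ≤ s := by
        by_contra hcon
        apply hL σ
        rw [ham]
        exact Dvd.dvd.mul_right (pow_dvd_pow N (by omega)) m
      rw [ham, mul_comm]
      exact Nat.mul_dvd_mul_left m (pow_dvd_pow N has)
  choose m hm hmd using hex
  intro z hz
  have hzL : z ∈ L := hz
  obtain ⟨M, hMdef⟩ : ∃ M, M = (∏ σ : Gal(L/F), m σ) * N ^ s := ⟨_, rfl⟩
  have hall : ∀ σ : Gal(L/F), σ ^ M = 1 := by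
    intro σ
    apply orderOf_dvd_iff_pow_eq_one.1
    rw [hMdef]
    refine (hmd σ).trans (Nat.mul_dvd_mul_right ?_ _)
    exact Finset.dvd_prod_of_mem m (Finset.mem_univ σ)
  refine mem_priS.2 ⟨∏ σ : Gal(L/F), m σ, Nat.Coprime.prod_left (fun i _ => hm i),
    fun g hg => ?_⟩
  rw [← hMdef]
  let g' : Gal(K/F) := AlgEquiv.ofRingEquiv (f := (g : K ≃+* K)) (fun f =>
    ALG.mem_fs.1 hg f.1 f.2)
  have h1 : ∀ (i : ℕ) (v : K), (g' ^ i) v = (g ^ i) v := by
    intro i
    induction i with
    | zero => intro v; rfl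
    | succ i ih =>
      intro v
      rw [pow_succ', pow_succ', AlgEquiv.mul_apply, AlgEquiv.mul_apply, ih]
      rfl
  have h3 : AlgEquiv.restrictNormal (g' ^ M) L = 1 := by
    have h4 := map_pow (AlgEquiv.restrictNormalHom (F := F) (K₁ := K) L) g' M
    change AlgEquiv.restrictNormalHom L (g' ^ M) = 1
    rw [h4]
    exact hall _
  have h5 := AlgEquiv.restrictNormal_commutes (g' ^ M) L ⟨z, hzL⟩
  rw [h3] at h5
  rw [← h1]
  exact h5.symm

end RS
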