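import Pool.Agent.H20.RT.Sand
import Pool.Agent.H20.RT.PriB
import Pool.Agent.H20.RT.Indep

/-!
The final theorems, over the compositum of the `[t_1, …, t_r]` with `t_i ∈ F'_s`.
-/

set_option linter.style.haveILetI false

namespace RS

open Polynomial IntermediateField

variable {k K : Type*} [Field k] [Field K] [Algebra k K]
variable {m n : ℕ} {x : Fin n → K} {y w : Fin m → K} (hmn : m ≤ n) {N : ℕ}

theorem stb_priS [IsAlgClosed k] (hN : N.Prime) {x x' : Fin n → K} (s : ℕ)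
    (hxx' : ∀ l, x' l ^ (N ^ s) = x l) : Stb x' (priS N s (adjoin k (Set.range x))) := by
  refine ⟨?_, fun g hg z hz => priS_stable (fixingSubgroup_antitone (F_le_of_pow hxx') hg) hz⟩
  rw [adjoin_le_iff]
  rintro _ ⟨l, rfl⟩
  refine mem_priS.2 ⟨1, Nat.coprime_one_left N, fun g hg => ?_⟩
  rw [one_mul]
  have hpos : 1 ≤ N ^ s := Nat.pow_pos hN.pos
  have hgx : (g (x' l)) ^ (N ^ s) = (x' l) ^ (N ^ s) := by
    rw [← map_pow, hxx', ALG.mem_fs.1 hg _ (subset_adjoin k _ ⟨l, rfl⟩)]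
  obtain ⟨c, hc⟩ := ALG.exists_algebraMap_of_pow (k := k) (a := g (x' l)) (b := x' l) (N ^ s)
    hpos hgx
  have hpow : ∀ i : ℕ, (g ^ i) (x' l) = algebraMap k K (c ^ i) * x' l := by
    intro i
    induction i with
    | zero => simp
    | succ i ih =>
      rw [pow_succ', AlgEquiv.mul_apply, ih, map_mul, AlgEquiv.commutes, hc, pow_succ, map_mul]
      ring
  rw [hpow, map_pow]
  by_cases h0 : x' l = 0
  · rw [h0]; ring
  · rw [hc, mul_pow] at hgx
    have h1 : (algebraMap k K c) ^ (N ^ s) = 1 :=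
      mul_right_cancel₀ (pow_ne_zero _ h0) (by rw [hgx, one_mul])
    rw [h1, one_mul]

/-- `e` algebraic over `k(T)` -/
theorem mem_of_alg {T : K} (hTM : T ∈ ALG.M k x 1 2)
    (hTac : T ∈ ALG.ac (adjoin k (Set.range (fun j : Fin m => x (Fin.castLE hmn j))))) {e : K}
    (he : IsAlgebraic k⟮T⟯ e) : e ∈ ALG.M k x 1 3 ∧ e ∈ ALG.M k x m 2 := by
  have h1 : e ∈ ALG.ac k⟮T⟯ := ALG.mem_ac.2 he
  constructor
  · apply ALG.bracket_le_M 1 1 (fun _ : Fin 1 => T) (fun _ => hTM)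
    rw [ALG.bracket_eq]
    refine ALG.ac_mono ?_ h1
    rw [adjoin_simple_le_iff]
    exact subset_adjoin k _ ⟨0, rfl⟩
  · apply ALG.bracket_le_M m 0 (fun j => x (Fin.castLE hmn j))
      (fun j => subset_adjoin k _ ⟨_, rfl⟩)
    rw [ALG.bracket_eq]
    refine ALG.ac_le ?_ h1
    rw [adjoin_simple_le_iff]
    exact hTac

/-- the auxiliary basis -/
theorem exists_x' [IsAlgClosed K] (hN : N.Prime) (s : ℕ)
    (hy : ∀ j, y j ^ (N ^ (s + 1)) = x (Fin.castLE hmn j)) :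
    ∃ x' : Fin n → K, (∀ l, x' l ^ (N ^ s) = x l) ∧ ∀ j, y j ^ N = x' (Fin.castLE hmn j) := by
  have hpos : 0 < N ^ s := Nat.pow_pos hN.pos
  have hex : ∀ l : Fin n, ∃ z : K, z ^ (N ^ s) = x l ∧
      ∀ j : Fin m, Fin.castLE hmn j = l → y j ^ N = z := by
    intro l
    by_cases hl : (l : ℕ) < m
    · refine ⟨y ⟨l, hl⟩ ^ N, ?_, ?_⟩
      · rw [← pow_mul, ← pow_succ', hy]
        rfl
      · intro j hj
        have h1 : j = ⟨l, hl⟩ := by
          apply Fin.ext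
          have h2 := congrArg Fin.val hj
          exact h2
        rw [h1]
    · obtain ⟨z, hz⟩ := IsAlgClosed.exists_pow_nat_eq (x l) hpos
      refine ⟨z, hz, ?_⟩
      intro j hj
      exfalso
      apply hl
      rw [← hj]
      exact j.2
  choose x' h1 h2 using hex
  exact ⟨x', h1, fun j => h2 _ j rfl⟩

theorem T_mem [IsAlgClosed K] (hN : N.Prime) (s : ℕ)
    (hy : ∀ j, y j ^ (N ^ (s + 1)) = x (Fin.castLE hmn j)) (hw : ∀ j, w j ^ N = 1 + y j)
    (j₀ : Fin m) : y j₀ ^ N + ∏ j, w j ∈ ALG.M k x 1 2 ∧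
      y j₀ ^ N + ∏ j, w j ∈
        ALG.ac (adjoin k (Set.range (fun j : Fin m => x (Fin.castLE hmn j)))) := by
  have hpos : 1 ≤ N ^ (s + 1) := Nat.pow_pos hN.pos
  constructor
  · exact add_mem (pow_mem (ALG.y_mem_M hmn 1 le_rfl hpos hy j₀) _)
      (P_mem_M hmn 1 le_rfl hpos hN.one_le hy hw)
  · refine add_mem (pow_mem ?_ _) (P_mem_ac hmn hpos hN.one_le hy hw)
    apply ALG.root_mem_ac hpos
    rw [hy]
    exact subset_adjoin k _ ⟨j₀, rfl⟩

/-- rotations over `F'_s` -/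
theorem hasRot_priS [IsAlgClosed k] [IsAlgClosed K] (hx : IsTranscendenceBasis k x) {r : ℕ}
    (hr : r < m) (hN : N.Prime) (hNk : (N : k) ≠ 0) (s : ℕ) {x' : Fin n → K}
    (hxx' : ∀ l, x' l ^ (N ^ s) = x l) (hy' : ∀ j, y j ^ N = x' (Fin.castLE hmn j))
    (hw : ∀ j, w j ^ N = 1 + y j) :
    HasRot k (priS N s (adjoin k (Set.range x))) N r (∏ j, w j) := by
  obtain ⟨p, hp⟩ := ExpChar.exists k
  have hNp : Nat.Coprime N p := coprime_of_ne_zero (k := k) p hNk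
  intro u hu
  exact exists_g_stb hmn (basis_of_pow hx hxx') p hN.two_le hNp hN hNp hy' hw hr
    (stb_priS hN s hxx') (indep_priS hmn hx hN hNk s hxx') u hu
    (fun i c hc0 hc1 hcN => exists_h_priS hN hNk hx s hxx' (Fin.castLE hmn i) (hy' i) hu hc0 hc1
      hcN)

/-- FINAL THEOREM -/
theorem main_priS [IsAlgClosed k] [IsAlgClosed K] (hx : IsTranscendenceBasis k x) {r : ℕ}
    (hr1 : 1 ≤ r) (hr : r < m) (hN : N.Prime) (hNk : (N : k) ≠ 0) (s : ℕ)
    (hy : ∀ j, y j ^ (N ^ (s + 1)) = x (Fin.castLE hmn j)) (hw : ∀ j, w j ^ N = 1 + y j)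
    (j₀ : Fin m)
    {E : Type*} [Field E] [Algebra k E] [Algebra (RatFunc k) E]
    [IsScalarTower k (RatFunc k) E] [FiniteDimensional (RatFunc k) E] [IsGalois (RatFunc k) E]
    (hcN : Nat.Coprime (Module.finrank (RatFunc k) E) N) :
    (∃ τ : E →ₐ[k] K, τ (algebraMap (RatFunc k) E RatFunc.X) = y j₀ ^ N + ∏ j, w j) ∧
    ∀ τ : E →ₐ[k] K, τ (algebraMap (RatFunc k) E RatFunc.X) = y j₀ ^ N + ∏ j, w j →
      τ (algebraMap (RatFunc k) E RatFunc.X) ∈ ALG.M k x 1 2 ∧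
      (∀ v : E, τ v ∈ ALG.M k x 1 3 ∧ τ v ∈ ALG.M k x m 2) ∧
      (∀ v : E, τ v ∈ comp (priS N s (adjoin k (Set.range x))) r ↔
        v ∈ Set.range (algebraMap (RatFunc k) E)) ∧
      ∀ σ : Gal(E/RatFunc k), ∃ g ∈ (comp (priS N s (adjoin k (Set.range x))) r).fixingSubgroup,
        ∀ v, τ (σ v) = g (τ v) := by
  obtain ⟨x', hxx', hy'⟩ := exists_x' hmn hN s hy
  have hx' := basis_of_pow hx hxx'
  obtain ⟨hex, -⟩ := main_all (E := E) hmn hx' hr1 hr hN.two_le hNk hN hNk hcN hcN hy' hw j₀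
  rw [← hy' j₀] at hex
  refine ⟨hex, fun τ hτ => ?_⟩
  obtain ⟨hT1, hT2⟩ := T_mem (k := k) hmn hN s hy hw j₀
  obtain ⟨h3, h4⟩ := main_comp_stb (E := E) hmn hx' hr1 hr hN.two_le hNk hN hNk hcN hcN
    (stb_priS hN s hxx') (hasRot_priS hmn hx hr hN hNk s hxx' hy' hw) hy' hw j₀ τ
    (by rw [← hy' j₀]; exact hτ)
  refine ⟨by rw [hτ]; exact hT1, fun v => ?_, h3, h4⟩
  exact mem_of_alg hmn hT1 hT2 (isAlgebraic_tau τ (by rw [hτ]; exact mem_adjoin_simple_self k _) v)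

include hmn in
/-- SANDWICH over `F'_s` -/
theorem sandwich_priS [IsAlgClosed k] [IsAlgClosed K] (hx : IsTranscendenceBasis k x) {r : ℕ}
    (hr1 : 1 ≤ r) (hr : r < m) {d q : ℕ} (hq : q.Prime) (hdq : d < q) (hq5 : 5 ≤ q) (hqN : q < N)
    (hN : N.Prime) (hNk : (N : k) ≠ 0) (s : ℕ) :
    ∃ e : K, e ∈ ALG.M k x 1 3 ∧ e ∈ ALG.M k x m 2 ∧
      ∀ L : IntermediateField k K,
        ALG.Tower d (comp (priS N s (adjoin k (Set.range x))) r) L → e ∉ L := by
  have hpos : 0 < N ^ (s + 1) := Nat.pow_pos hN.pos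
  have hyex : ∀ j : Fin m, ∃ y : K, y ^ (N ^ (s + 1)) = x (Fin.castLE hmn j) := fun j =>
    IsAlgClosed.exists_pow_nat_eq _ hpos
  choose y hy using hyex
  have hwex : ∀ j : Fin m, ∃ w : K, w ^ N = 1 + y j := fun j =>
    IsAlgClosed.exists_pow_nat_eq _ hN.pos
  choose w hw using hwex
  let j₀ : Fin m := ⟨0, by omega⟩
  let j₁ : Fin m := ⟨1, by omega⟩
  have hj : j₁ ≠ j₀ := by
    intro h
    have := congrArg Fin.val h
    simp [j₀, j₁] at this
  obtain ⟨x', hxx', hy'⟩ := exists_x' hmn hN s hy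
  have hx' := basis_of_pow hx hxx'
  obtain ⟨e, he, hL⟩ := sandwich_stb hmn hx' hr1 hr hq hdq hq5 hqN hN hNk
    (stb_priS hN s hxx') hy' hw (hasRot_priS hmn hx hr hN hNk s hxx' hy' hw) hj
  rw [← hy' j₀] at he
  obtain ⟨hT1, hT2⟩ := T_mem (k := k) hmn hN s hy hw j₀
  obtain ⟨h1, h2⟩ := mem_of_alg hmn hT1 hT2 he
  exact ⟨e, h1, h2, hL⟩

/-- `FS k x N s`: all `z ∈ K` such that, for some `e` prime to `N`, `g ^ (e * N ^ s)` fixes `z` for all
automorphisms `g` of `K` over `k(x)` -/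
def FS (k : Type*) [Field k] [Algebra k K] {n : ℕ} (x : Fin n → K) (N s : ℕ) :
    IntermediateField k K :=
  priS N s (adjoin k (Set.range x))

/-- `MS k x N s r`: the compositum of all `[t_1, …, t_r]` with `t_i ∈ FS k x N s` -/
noncomputable def MS (k : Type*) [Field k] [Algebra k K] {n : ℕ} (x : Fin n → K) (N s r : ℕ) :
    IntermediateField k K :=
  comp (FS k x N s) r

/-- `L` is a finite Galois extension of `F`, and no element of its group has order divisible by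
`M` -/
def GalNo {F : IntermediateField k K} (L : IntermediateField F K) (M : ℕ) : Prop :=
  FiniteDimensional F L ∧ IsGalois F L ∧ ∀ σ : Gal(L/F), ¬ M ∣ orderOf σ

/-- the image of `T` under an embedding `τ` of a finite extension `E` of `k(T)` -/
noncomputable def imT {E : Type*} [Field E] [Algebra k E] [Algebra (RatFunc k) E]
    (τ : E →ₐ[k] K) : K :=
  τ (algebraMap (RatFunc k) E RatFunc.X)

end RS
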