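import Pool.Agent.H20.RT.MovT
import Pool.Agent.H20.RT.Pri

/-!
The mover over `F'_s`.
-/

set_option linter.style.haveILetI false

namespace RS

open Polynomial IntermediateField

variable {k K : Type*} [Field k] [Field K] [Algebra k K]

/-- roots of the elements of a transcendence basis form a transcendence basis -/
theorem basis_of_pow {n : ℕ} {x x' : Fin n → K} (hx : IsTranscendenceBasis k x) {M : ℕ}
    (h : ∀ l, x' l ^ M = x l) : IsTranscendenceBasis k x' := by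
  have hle : Algebra.adjoin k (Set.range x) ≤ Algebra.adjoin k (Set.range x') := by
    rw [Algebra.adjoin_le_iff]
    rintro _ ⟨l, rfl⟩
    rw [← h l]
    have h1 : x' l ∈ Algebra.adjoin k (Set.range x') := Algebra.subset_adjoin ⟨l, rfl⟩
    exact pow_mem h1 M
  haveI : Algebra.IsAlgebraic (Algebra.adjoin k (Set.range x')) K := by
    refine ⟨fun z => ?_⟩
    haveI := hx.isAlgebraic
    obtain ⟨P, hP, hPz⟩ :=
      Algebra.IsAlgebraic.isAlgebraic (R := Algebra.adjoin k (Set.range x)) z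
    refine ⟨P.map (Subalgebra.inclusion hle).toRingHom, ?_, ?_⟩
    · rw [Ne, Polynomial.map_eq_zero_iff]
      · exact hP
      · exact Subalgebra.inclusion_injective hle
    · rw [aeval_def, eval₂_map]
      exact hPz
  refine Algebra.IsAlgebraic.isTranscendenceBasis_of_lift_le_trdeg_of_finite k x' ?_
  exact hx.lift_cardinalMk_eq_trdeg.le

theorem F_le_of_pow {n : ℕ} {x x' : Fin n → K} {M : ℕ} (h : ∀ l, x' l ^ M = x l) :
    adjoin k (Set.range x) ≤ adjoin k (Set.range x') := by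
  rw [adjoin_le_iff]
  rintro _ ⟨l, rfl⟩
  rw [← h l]
  have h1 : x' l ∈ adjoin k (Set.range x') := subset_adjoin k _ ⟨l, rfl⟩
  exact pow_mem h1 M

/-- the mover over `F'_s` -/
theorem exists_h_priS [IsAlgClosed k] [IsAlgClosed K] {N : ℕ} (hN : N.Prime)
    (hNk : (N : k) ≠ 0) {n : ℕ} {x x' : Fin n → K} (hx : IsTranscendenceBasis k x) (s : ℕ)
    (hxx' : ∀ l, x' l ^ (N ^ s) = x l) (i : Fin n) {b : K} (hb : b ^ N = x' i) {r : ℕ}
    {u : Fin r → K} (hu : ∀ j, u j ∈ priS N s (adjoin k (Set.range x))) {c : k} (hc0 : c ≠ 0)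
    (hc1 : c ≠ 1) (hcN : c ^ N = 1) :
    ∃ h ∈ (PX.Om k x' i ⊔ k⟮b⟯).fixingSubgroup, (∀ j, h (u j) = u j) ∧
      ∀ z : K, z ^ N = aeval b (rot c (1 + X : k[X]) * (1 + X) ^ (N - 1)) → h z ≠ z := by
  obtain ⟨p, hp⟩ := ExpChar.exists k
  have hNp : Nat.Coprime N p := coprime_of_ne_zero (k := k) p hNk
  have hx' : IsTranscendenceBasis k x' := basis_of_pow hx hxx'
  set Ω := PX.Om k x' i with hΩ
  have hbn : b ∉ ALG.ac Ω := by
    rw [hΩ, PX.ac_Om]
    exact PX.b_notMem_Om hx' hb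
  have htop : ALG.ac (Ω ⊔ k⟮b⟯) = ⊤ := PX.Om_top hx' hb
  have hF : adjoin k (Set.range x) ≤ Ω ⊔ k⟮b⟯ := (F_le_of_pow hxx').trans (PX.F_le_Om hb)
  obtain ⟨e, heN, he⟩ := priS_fin hu
  -- a primitive root of unity
  haveI : NeZero ((N ^ (s + 1) : ℕ) : k) := ⟨by rw [Nat.cast_pow]; exact pow_ne_zero _ hNk⟩
  obtain ⟨ζ, hζ⟩ := HasEnoughRootsOfUnity.exists_primitiveRoot k (N ^ (s + 1))
  have hζ0 : ζ ≠ 0 := by
    have h1 : 0 < N ^ (s + 1) := Nat.pow_pos hN.pos
    exact hζ.ne_zero h1.ne'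
  obtain ⟨γ, hγΩ, hγb⟩ := exists_rot_aut Ω hbn htop hζ0
  have hγF : γ ∈ (adjoin k (Set.range x)).fixingSubgroup := by
    rw [ALG.mem_fs_adjoin]
    rintro _ ⟨l, rfl⟩
    by_cases hl : l = i
    · rw [hl, ← hxx' i, ← hb, ← pow_mul, ← pow_succ', map_pow, hγb, mul_pow, ← map_pow,
        hζ.pow_eq_one, map_one, one_mul]
    · rw [← hxx' l, map_pow, ALG.mem_fs.1 hγΩ _ (PX.x_mem_Om hl)]
  have hM1 : ∀ g ∈ (adjoin k (Set.range x)).fixingSubgroup, ∀ j,
      (g ^ (e * N ^ s)) (u j) = u j := fun g hg j => he g hg 1 (one_mem _) j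
  have hγl : ∀ l : ℕ, (γ ^ l) b = algebraMap k K (ζ ^ l) * b := by
    intro l
    induction l with
    | zero => simp
    | succ l ih =>
      rw [pow_succ', AlgEquiv.mul_apply, ih, map_mul, AlgEquiv.commutes, hγb, pow_succ, map_mul]
      ring
  have hζM : ζ ^ (e * N ^ s) ≠ 1 := by
    intro h
    have h1 := (hζ.pow_eq_one_iff_dvd _).1 h
    rw [pow_succ', Nat.mul_dvd_mul_iff_right (Nat.pow_pos hN.pos)] at h1
    have h2 := Nat.Coprime.eq_one_of_dvd heN.symm h1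
    exact hN.one_lt.ne' h2
  by_cases hN2 : N = 2
  · subst hN2
    have h2 : (2 : k) ≠ 0 := by exact_mod_cast hNk
    have hcm : c = -1 := (sq_eq_one_iff.1 hcN).resolve_left hc1
    subst hcm
    have hR0 : rot (-1) (1 + X : k[X]) * (1 + X) ^ (2 - 1) ≠ 0 :=
      mul_ne_zero (rot_ne_zero hc0 one_add_X_ne) (pow_ne_zero _ one_add_X_ne)
    have he0 : 1 ≤ e := by
      rcases Nat.eq_zero_or_pos e with h | h
      · rw [h] at heN
        norm_num at heN
      · exact h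
    refine exists_h_norm p (by norm_num) hNp (adjoin k (Set.range x)) Ω hbn htop hF u (e * 2 ^ s)
      (Nat.mul_pos he0 (by positivity)) hM1 hγF hγΩ hγb hζ0 _ hR0 1 ?_
    rw [mult_two h2 hζ]
    intro h
    have h3 := Nat.Coprime.eq_one_of_dvd heN.symm h
    norm_num at h3
  · have hN3 : 3 ≤ N := by
      have := hN.two_le
      omega
    exact exists_h_odd p hN3 hNp (adjoin k (Set.range x)) Ω hbn htop hF u (e * N ^ s) he hγF hγΩ
      (hγl _) (pow_ne_zero _ hζ0) hζM hc0 hc1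

end RS
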