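import Pool.Agent.H20.RS.AllI
import Pool.Agent.H20.RT.Inn

/-!
Every finite Galois extension of `k(T)` over `comp D r`, for a stable field `D` with rotations of `W`.
-/

set_option linter.style.haveILetI false

namespace RS

open Polynomial IntermediateField
open scoped commutatorElement

variable {k K : Type*} [Field k] [Field K] [Algebra k K]
variable {m n : ℕ} {x : Fin n → K} {y w : Fin m → K} (hmn : m ≤ n) {ℓ N : ℕ}

/-- rotations of `W` over `D` and `[u]` -/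
def HasRot (k : Type*) [Field k] [Algebra k K] (D : IntermediateField k K) (N r : ℕ) (W : K) :
    Prop :=
  ∀ u : Fin r → K, (∀ i, u i ∈ D) → ∃ g ∈ D.fixingSubgroup,
    g ∈ (ALG.bracket (k := k) u).fixingSubgroup ∧
    ∃ χ : k, χ ^ N = 1 ∧ χ ≠ 1 ∧ g⁻¹ W = algebraMap k K χ * W

variable {D : IntermediateField k K}

section

variable {E : Type*} [Field E] [Algebra k E] [Algebra (RatFunc k) E]
  [IsScalarTower k (RatFunc k) E]

variable [FiniteDimensional (RatFunc k) E] [IsGalois (RatFunc k) E]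

include hmn in
/-- every element of the Galois group is induced by automorphisms over finitely many `[u]` -/
theorem exists_act_stb [IsAlgClosed k] [IsAlgClosed K] (hx : IsTranscendenceBasis k x) (p : ℕ)
    [ExpChar k p] (hℓ : 2 ≤ ℓ) (hℓp : Nat.Coprime ℓ p) (hN : N.Prime) (hNp : Nat.Coprime N p)
    (hy : ∀ j, y j ^ ℓ = x (Fin.castLE hmn j)) (hw : ∀ j, w j ^ N = 1 + y j)
    (hcℓ : Nat.Coprime (Nat.card Gal(E/RatFunc k)) ℓ)
    (hcN : Nat.Coprime (Nat.card Gal(E/RatFunc k)) N)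
    {j₀ j₁ : Fin m} (hj : j₀ ≠ j₁) {r : ℕ} (hr : r < m) (hDI : Stb x D)
    (hrot : HasRot k D N r (∏ j, w j)) (τ : E →ₐ[k] K)
    (hτ : τ (algebraMap (RatFunc k) E RatFunc.X) = x (Fin.castLE hmn j₀) + ∏ j, w j) :
    ∀ (S : Finset {t : Fin r → K // ∀ i, t i ∈ D})
    (σ : Gal(E/RatFunc k)),
    ∃ h ∈ D.fixingSubgroup,
      (∀ t ∈ S, h ∈ (ALG.bracket (k := k) t.1).fixingSubgroup) ∧ ∀ v, τ (σ v) = h (τ v) := by
  classical
  set F := adjoin k (Set.range x) with hF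
  intro S σ
  have hFD : F ≤ D := hDI.le
  set W := ∏ j, w j with hW
  have hW0 : W ≠ 0 := Finset.prod_ne_zero_iff.2 (fun j _ => w_ne_zero hmn hx hN.one_le hy hw j)
  have hfixT : ∀ b : Gal(K/k), b ∈ F.fixingSubgroup → b W = W →
      ∃ ρ : Gal(E/RatFunc k), ∀ v, τ (ρ v) = b (τ v) := by
    intro b hbF hbW
    apply exists_sigma_of_mem τ (P := x (Fin.castLE hmn j₀) + W)
    · rw [hτ]; exact mem_adjoin_simple_self k _
    · rw [ALG.mem_fs_adjoin]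
      intro z hz
      rw [Set.mem_singleton_iff] at hz
      rw [hz, map_add, hbW, ALG.mem_fs.1 hbF _ (subset_adjoin k _ ⟨_, rfl⟩)]
  -- the hypotheses of the group theoretic lemma
  have hA : ∀ a ∈ GA k x W N, a ^ (Nat.card Gal(E/RatFunc k)) ∈ GC x W N τ := by
    intro a ha
    refine ⟨mem_GA.1 (pow_mem ha _), fun γ v => ?_⟩
    have hb : γ⁻¹ * a * γ ∈ GA k x W N := by
      have h1 := (GA_normal (k := k) (x := x) (N := N) W).conj_mem a ha γ⁻¹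
      rwa [inv_inv] at h1
    obtain ⟨ρ, hρ⟩ := hfixT (γ⁻¹ * a * γ).1 (mem_Gam.1 (γ⁻¹ * a * γ).2).1 (mem_GA.1 hb)
    have h1 := pow_apply_tau hρ (Nat.card Gal(E/RatFunc k)) v
    rw [pow_card_eq_one', AlgEquiv.one_apply] at h1
    have h2 : (γ⁻¹ * a * γ) ^ (Nat.card Gal(E/RatFunc k)) =
        γ⁻¹ * a ^ (Nat.card Gal(E/RatFunc k)) * γ := by
      have h3 := conj_pow (i := Nat.card Gal(E/RatFunc k)) (a := γ⁻¹) (b := a)
      rwa [inv_inv] at h3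
    have h4 : (γ⁻¹ * a ^ (Nat.card Gal(E/RatFunc k)) * γ).1 (τ v) = τ v := by
      rw [← h2]
      exact h1
    have h5 : γ.1⁻¹ ((a ^ (Nat.card Gal(E/RatFunc k))).1 (γ.1 (τ v))) = τ v := h4
    have h6 := congrArg γ.1 h5
    rwa [PX.apply_inv] at h6
  have hval : ∀ {χ : k}, ∀ {z : K}, z = algebraMap k K χ * W → z = W → χ = 1 := by
    intro χ z hz hz'
    apply (algebraMap k K).injective
    rw [map_one]
    apply mul_right_cancel₀ hW0
    rw [← hz, hz', one_mul]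
  have hpowW : ∀ (g : Gam k x W N) (χ : k), g.1 W = algebraMap k K χ * W → ∀ i : ℕ,
      (g ^ i).1 W = algebraMap k K (χ ^ i) * W := by
    intro g χ hg i
    induction i with
    | zero => simp
    | succ i ih =>
      rw [pow_succ', pow_succ']
      change g.1 ((g ^ i).1 W) = _
      rw [ih, map_mul, AlgEquiv.commutes, hg, map_mul]
      ring
  have hΓN : ∀ γ : Gam k x W N, γ ^ N ∈ GA k x W N := by
    intro γ
    obtain ⟨-, χ, hχN, hχ⟩ := mem_Gam.1 γ.2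
    rw [mem_GA, hpowW γ χ hχ, ← Units.val_pow_eq_pow_val, hχN, Units.val_one, map_one, one_mul]
  have hΓ : ∀ g ∉ GA k x W N, ∀ γ : Gam k x W N, ∃ a ∈ GA k x W N, ∃ i : ℕ, γ = a * g ^ i := by
    intro g hg γ
    obtain ⟨-, χ, hχN, hχ⟩ := mem_Gam.1 g.2
    obtain ⟨-, χ', hχN', hχ'⟩ := mem_Gam.1 γ.2
    have hχ1 : χ ≠ 1 := by
      rintro rfl
      apply hg
      rw [mem_GA, hχ, Units.val_one, map_one, one_mul]
    have hord : orderOf χ = N := by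
      haveI : Fact N.Prime := ⟨hN⟩
      exact orderOf_eq_prime hχN hχ1
    have hprim : IsPrimitiveRoot χ N := hord ▸ IsPrimitiveRoot.orderOf χ
    have hprim' : IsPrimitiveRoot (χ : k) N := (IsPrimitiveRoot.coe_units_iff).2 hprim
    haveI : NeZero N := ⟨hN.ne_zero⟩
    obtain ⟨i, -, hi⟩ := hprim'.eq_pow_of_pow_eq_one (ξ := (χ' : k)) (by
      rw [← Units.val_pow_eq_pow_val, hχN', Units.val_one])
    refine ⟨γ * (g ^ i)⁻¹, ?_, i, by group⟩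
    rw [mem_GA]
    change γ.1 ((g ^ i).1⁻¹ W) = W
    have h1 : (g ^ i).1⁻¹ W = algebraMap k K (χ' : k)⁻¹ * W := by
      apply PX.inv_apply_eq
      rw [map_mul, AlgEquiv.commutes, hpowW g χ hχ, hi, ← mul_assoc, ← map_mul,
        inv_mul_cancel₀ χ'.ne_zero, map_one, one_mul]
    rw [h1, map_mul, AlgEquiv.commutes, hχ', ← mul_assoc, ← map_mul,
      inv_mul_cancel₀ χ'.ne_zero, map_one, one_mul]
  -- the subgroup over `D`
  let Γ₂ : Subgroup (Gam k x W N) := D.fixingSubgroup.subgroupOf (Gam k x W N)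
  haveI hΓ₂n : Γ₂.Normal := by
    constructor
    intro b hb g
    rw [Subgroup.mem_subgroupOf, ALG.mem_fs] at hb ⊢
    intro z hz
    have h1 : g.1⁻¹ z ∈ D := hDI.stable _ (inv_mem (mem_Gam.1 g.2).1) z hz
    change g.1 (b.1 (g.1⁻¹ z)) = z
    rw [hb _ h1, PX.apply_inv]
  let B : {t : Fin r → K // ∀ i, t i ∈ D} → Subgroup (Gam k x W N) :=
    fun t => (D.fixingSubgroup ⊓ (ALG.bracket (k := k) t.1).fixingSubgroup).subgroupOf
      (Gam k x W N)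
  have hB₂ : ∀ t, B t ≤ Γ₂ := by
    intro t b hb
    rw [Subgroup.mem_subgroupOf] at hb ⊢
    exact (Subgroup.mem_inf.1 hb).1
  have hBn : ∀ t, ∀ b ∈ B t, ∀ g ∈ Γ₂, g * b * g⁻¹ ∈ B t := by
    intro t b hb g hg
    have hbD : b ∈ Γ₂ := hB₂ t hb
    have hgD : g.1 ∈ D.fixingSubgroup := Subgroup.mem_subgroupOf.1 hg
    have h0 : (g * b * g⁻¹).1 ∈ D.fixingSubgroup :=
      Subgroup.mem_subgroupOf.1 (hΓ₂n.conj_mem b hbD g)
    rw [Subgroup.mem_subgroupOf]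
    refine Subgroup.mem_inf.2 ⟨h0, ?_⟩
    have hb' := (Subgroup.mem_inf.1 (Subgroup.mem_subgroupOf.1 hb)).2
    rw [ALG.mem_fs] at hb' ⊢
    intro z hz
    have h1 : g.1⁻¹ z ∈ ALG.bracket (k := k) t.1 :=
      ALG.bracket_stable t.2 (inv_mem hgD) hz
    change g.1 (b.1 (g.1⁻¹ z)) = z
    rw [hb' _ h1, PX.apply_inv]
  have hmv : ∀ t : Fin r → K, (∀ i, t i ∈ D) → ∃ g : Gam k x W N, g.1 ∈ D.fixingSubgroup ∧
      g.1 ∈ (ALG.bracket (k := k) t).fixingSubgroup ∧ g ∉ GA k x W N := by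
    intro t ht
    obtain ⟨g, hgD, hgu, χ, hχN, hχ1, hgW⟩ := hrot t ht
    have hχ0 : χ ≠ 0 := by
      rintro rfl
      rw [zero_pow hN.ne_zero] at hχN
      exact zero_ne_one hχN
    have hmem : g⁻¹ ∈ Gam k x W N := ⟨inv_mem (fixingSubgroup_antitone hFD hgD),
      Units.mk0 χ hχ0, Units.ext (by rw [Units.val_pow_eq_pow_val]; exact hχN), hgW⟩
    refine ⟨⟨g⁻¹, hmem⟩, inv_mem hgD, inv_mem hgu, ?_⟩
    intro h
    exact hχ1 (hval hgW (mem_GA.1 h))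
  have hB : ∀ t, ∃ g ∈ B t, g ∉ GA k x W N := by
    intro t
    obtain ⟨g, hgD, hg, hgA⟩ := hmv t.1 t.2
    exact ⟨g, Subgroup.mem_subgroupOf.2 (Subgroup.mem_inf.2 ⟨hgD, hg⟩), hgA⟩
  obtain ⟨g₀, hg₀D, -, hg₀⟩ := hmv (fun _ => 0) (fun _ => zero_mem _)
  obtain ⟨g, hgA, hg⟩ := exists_in_inter₂ (GA k x W N) (GC x W N τ) Γ₂ hcN hA hΓ hΓN B hB₂ hBn hB
    S g₀ (Subgroup.mem_subgroupOf.2 hg₀D) hg₀
  obtain ⟨hgF, -⟩ := mem_Gam.1 g.2
  obtain ⟨-, χ, hχN, hχ⟩ := mem_Gam.1 (inv_mem g.2)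
  have hχ1 : (χ : k) ≠ 1 := by
    intro h
    rw [h, map_one, one_mul] at hχ
    exact hgA (inv_mem_iff.1 (mem_GA.2 hχ))
  obtain ⟨h, hhF, hhW, hhτ, hgh⟩ := single hmn hx p (by omega : 1 ≤ ℓ) hN.one_le hy hw hcℓ hj τ hτ
    g.1 hgF hχ1 hχ σ
  let h' : Gam k x W N := ⟨h, hhF, 1, one_pow N, by rw [hhW, Units.val_one, map_one, one_mul]⟩
  have hh'A : h' ∈ GA k x W N := hhW
  obtain ⟨δ, hδ, c, hc, hδc⟩ := hg h' hh'A
  refine ⟨δ.1, Subgroup.mem_subgroupOf.1 (Subgroup.mem_inf.1 (Subgroup.mem_inf.1 hδ).1).2, ?_, ?_⟩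
  · intro t ht
    have h1 : δ ∈ ⨅ i ∈ S, B i := (Subgroup.mem_inf.1 hδ).2
    simp only [Subgroup.mem_iInf] at h1
    exact (Subgroup.mem_inf.1 (Subgroup.mem_subgroupOf.1 (h1 t ht))).2
  · intro v
    rw [hδc]
    change τ (σ v) = g.1 (h (g.1⁻¹ (h⁻¹ (c.1 (τ v)))))
    have h1 : c.1 (τ v) = τ v := (mem_GC.1 hc).2 1 v
    rw [h1, PX.inv_apply_of_fix (hhτ v), hgh]

include hmn in
/-- disjointness from `comp D r` -/
theorem disj_comp_stb [IsAlgClosed k] [IsAlgClosed K] (hx : IsTranscendenceBasis k x) (p : ℕ)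
    [ExpChar k p] (hℓ : 2 ≤ ℓ) (hℓp : Nat.Coprime ℓ p) (hN : N.Prime) (hNp : Nat.Coprime N p)
    (hy : ∀ j, y j ^ ℓ = x (Fin.castLE hmn j)) (hw : ∀ j, w j ^ N = 1 + y j)
    (hcℓ : Nat.Coprime (Nat.card Gal(E/RatFunc k)) ℓ)
    (hcN : Nat.Coprime (Nat.card Gal(E/RatFunc k)) N)
    (j₀ : Fin m) {r : ℕ} (hr1 : 1 ≤ r) (hr : r < m) (hDI : Stb x D)
    (hrot : HasRot k D N r (∏ j, w j)) (τ : E →ₐ[k] K)
    (hτ : τ (algebraMap (RatFunc k) E RatFunc.X) = x (Fin.castLE hmn j₀) + ∏ j, w j)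
    (v : E) (hv : τ v ∈ comp D r) : v ∈ Set.range (algebraMap (RatFunc k) E) := by
  classical
  rw [comp] at hv
  obtain ⟨S, hS⟩ := exists_finset_of_mem_iSup hv
  haveI : Nontrivial (Fin m) := Fin.nontrivial_iff_two_le.2 (by omega)
  obtain ⟨j₁, hj⟩ := exists_ne j₀
  refine IntermediateField.mem_bot.1 ((IsGalois.mem_bot_iff_fixed v).2 (fun σ => ?_))
  obtain ⟨h, -, hd, hdτ⟩ := exists_act_stb hmn hx p hℓ hℓp hN hNp hy hw hcℓ hcN hj.symm hr hDI hrot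
    τ hτ S σ
  apply τ.toRingHom.injective
  change τ (σ v) = τ v
  rw [hdτ]
  have h1 : h ∈ (⨆ t ∈ S, ALG.bracket (k := k) t.1).fixingSubgroup :=
    ALG.fs_iSup_aux S (fun t : {t : Fin r → K // ∀ i, t i ∈ D} =>
      ALG.bracket (k := k) t.1) hd
  exact ALG.mem_fs.1 h1 _ hS

/-- the theorem, given the independence -/
theorem main_comp_stb [IsAlgClosed k] [IsAlgClosed K] (hx : IsTranscendenceBasis k x) {r : ℕ}
    (hr1 : 1 ≤ r) (hr : r < m) (hℓ : 2 ≤ ℓ) (hℓk : (ℓ : k) ≠ 0) (hN : N.Prime)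
    (hNk : (N : k) ≠ 0) (hcℓ : Nat.Coprime (Module.finrank (RatFunc k) E) ℓ)
    (hcN : Nat.Coprime (Module.finrank (RatFunc k) E) N) (hDI : Stb x D)
    (hrot : HasRot k D N r (∏ j, w j))
    (hy : ∀ j, y j ^ ℓ = x (Fin.castLE hmn j)) (hw : ∀ j, w j ^ N = 1 + y j) (j₀ : Fin m)
    (τ : E →ₐ[k] K)
    (hτ : τ (algebraMap (RatFunc k) E RatFunc.X) = x (Fin.castLE hmn j₀) + ∏ j, w j) :
    (∀ v : E, τ v ∈ comp D r ↔ v ∈ Set.range (algebraMap (RatFunc k) E)) ∧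
      ∀ σ : Gal(E/RatFunc k), ∃ g ∈ (comp D r).fixingSubgroup, ∀ v, τ (σ v) = g (τ v) := by
  classical
  obtain ⟨p, hp⟩ := ExpChar.exists k
  have hℓp : Nat.Coprime ℓ p := coprime_of_ne_zero (k := k) p hℓk
  have hNp : Nat.Coprime N p := coprime_of_ne_zero (k := k) p hNk
  rw [← IsGalois.card_aut_eq_finrank] at hcℓ hcN
  have hMc : ALG.M k x r 2 ≤ comp D r := by
    rw [M_eq_comp]
    exact comp_mono hDI.le r
  have hTM : τ (algebraMap (RatFunc k) E RatFunc.X) ∈ comp D r := by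
    rw [hτ]
    apply hMc
    exact add_mem (ALG.F_le_M r hr1 (subset_adjoin k _ ⟨_, rfl⟩))
      (P_mem_M hmn r hr1 (by omega) hN.one_le hy hw)
  have hac : ALG.ac (comp D r) = ⊤ := by
    rw [eq_top_iff, ← ac_M hx r hr1]
    exact ALG.ac_mono hMc
  have hd := disj_comp_stb hmn hx p hℓ hℓp hN hNp hy hw hcℓ hcN j₀ hr1 hr hDI hrot τ hτ
  refine ⟨fun v => ⟨hd v, ?_⟩, group_of_disjI p _ hac τ hTM hd⟩
  rintro ⟨f, rfl⟩
  exact tau_mem τ hTM f

end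

end RS
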