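import Pool.Agent.H20.RS.Dst

/-!
An automorphism over `Ω(b)` which fixes given elements and moves the `N`-th roots of
`(1 + c X)(1 + X)^(N-1)` at `b`, when all automorphisms over `F` have `M`-th powers fixing the given
elements and their conjugates. The case `N ≥ 3`.
-/

set_option linter.style.haveILetI false

namespace RS

open Polynomial IntermediateField

variable {k K : Type*} [Field k] [Field K] [Algebra k K]

/-- rotation of a transcendental element -/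
theorem exists_rot_aut [IsAlgClosed K] (Ω : IntermediateField k K) {b : K}
    (hb : b ∉ ALG.ac Ω) (htop : ALG.ac (Ω ⊔ k⟮b⟯) = ⊤) {ζ : k} (hζ : ζ ≠ 0) :
    ∃ γ ∈ Ω.fixingSubgroup, γ b = algebraMap k K ζ * b := by
  set b' : K := algebraMap k K ζ * b with hb'
  have hbb : b = algebraMap k K ζ⁻¹ * b' := by
    rw [hb', ← mul_assoc, ← map_mul, inv_mul_cancel₀ hζ, map_one, one_mul]
  have hb'n : b' ∉ ALG.ac Ω := by
    intro h
    apply hb
    rw [hbb]
    exact mul_mem (IntermediateField.algebraMap_mem _ _) h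
  have htop' : ALG.ac (Ω ⊔ k⟮b'⟯) = ⊤ := by
    rw [eq_top_iff, ← htop]
    refine ALG.ac_mono (sup_le le_sup_left ?_)
    rw [adjoin_simple_le_iff, hbb]
    exact mul_mem (IntermediateField.algebraMap_mem _ _)
      ((le_sup_right : k⟮b'⟯ ≤ _) (mem_adjoin_simple_self k b'))
  haveI := ALG.alg_of_ac htop
  haveI := ALG.alg_of_ac htop'
  obtain ⟨σ, hσ⟩ := ALG.exists_map_transcendental (ALG.tr_of_notMem hb) (ALG.tr_of_notMem hb'n)
  exact ⟨σ.restrictScalars k, ALG.restrict_mem_fs σ, hσ⟩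

theorem mult_one_add_X' (a : k) [Decidable (a = -1)] :
    rootMultiplicity a (1 + X : k[X]) = if a = -1 then 1 else 0 := by
  classical
  have h0 : (1 + X : k[X]) = X - C (-1) := by rw [C_neg, C_1]; ring
  rw [h0, rootMultiplicity_X_sub_C]
  congr

theorem one_add_X_ne : (1 + X : k[X]) ≠ 0 := by
  have h0 : (1 + X : k[X]) = X - C (-1) := by rw [C_neg, C_1]; ring
  rw [h0]; exact X_sub_C_ne_zero _

/-- the polynomial of the commutator of the mover with a rotation -/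
theorem mult_aux₂ {N : ℕ} {c ζ : k} (hc0 : c ≠ 0) (hc1 : c ≠ 1) (hζ0 : ζ ≠ 0) (hζ1 : ζ ≠ 1)
    (hN : 3 ≤ N) :
    (rot ζ (rot c (1 + X : k[X]) * (1 + X) ^ (N - 1)) *
      (rot c (1 + X : k[X]) * (1 + X) ^ (N - 1)) ^ (N - 1)) ≠ 0 ∧
    ¬ N ∣ rootMultiplicity (-1) (rot ζ (rot c (1 + X : k[X]) * (1 + X) ^ (N - 1)) *
      (rot c (1 + X : k[X]) * (1 + X) ^ (N - 1)) ^ (N - 1)) := by
  classical
  have h1 : (1 + X : k[X]) ≠ 0 := one_add_X_ne
  set R : k[X] := rot c (1 + X : k[X]) * (1 + X) ^ (N - 1) with hR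
  have hR0 : R ≠ 0 := mul_ne_zero (rot_ne_zero hc0 h1) (pow_ne_zero _ h1)
  have hRm : ∀ a, rootMultiplicity a R = (if c * a = -1 then 1 else 0) +
      (N - 1) * (if a = -1 then 1 else 0) := by
    intro a
    rw [hR, rootMultiplicity_mul hR0, mult_rot hc0, mult_pow h1, mult_one_add_X', mult_one_add_X']
  have h2 : rot ζ R * R ^ (N - 1) ≠ 0 := mul_ne_zero (rot_ne_zero hζ0 hR0) (pow_ne_zero _ hR0)
  refine ⟨h2, ?_⟩
  rw [rootMultiplicity_mul h2, mult_rot hζ0, mult_pow hR0, hRm, hRm]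
  have e1 : ¬ (ζ * -1 = -1) := by
    intro h
    apply hζ1
    linear_combination -h
  have e2 : ¬ (c * -1 = -1) := by
    intro h
    apply hc1
    linear_combination -h
  rw [if_neg e1, if_neg e2, if_pos rfl, mul_zero, add_zero, mul_one, zero_add]
  obtain ⟨t, rfl⟩ : ∃ t, N = t + 3 := ⟨N - 3, by omega⟩
  have h3 : (t + 3 - 1) * (t + 3 - 1) = (t + 3) * (t + 1) + 1 := by
    have : t + 3 - 1 = t + 2 := by omega
    rw [this]; ring
  rw [h3]
  split_ifs
  · rw [show 1 + ((t + 3) * (t + 1) + 1) = 2 + (t + 3) * (t + 1) by ring]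
    intro h
    have h4 := (Nat.dvd_add_left (Dvd.intro _ rfl : t + 3 ∣ (t + 3) * (t + 1))).1 h
    have := Nat.le_of_dvd (by norm_num) h4
    omega
  · rw [show 0 + ((t + 3) * (t + 1) + 1) = 1 + (t + 3) * (t + 1) by ring]
    intro h
    have h4 := (Nat.dvd_add_left (Dvd.intro _ rfl : t + 3 ∣ (t + 3) * (t + 1))).1 h
    have := Nat.le_of_dvd (by norm_num) h4
    omega

theorem aeval_rot (ζ : k) (R : k[X]) (b : K) :
    aeval b (rot ζ R) = aeval (algebraMap k K ζ * b) R := by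
  rw [rot, aeval_comp, map_mul, aeval_C, aeval_X]

/-- the mover, `N ≥ 3` -/
theorem exists_h_odd [IsAlgClosed k] [IsAlgClosed K] (p : ℕ) [ExpChar k p] {N : ℕ} (hN : 3 ≤ N)
    (hNp : Nat.Coprime N p) (F Ω : IntermediateField k K) {b : K} (hb : b ∉ ALG.ac Ω)
    (htop : ALG.ac (Ω ⊔ k⟮b⟯) = ⊤) (hF : F ≤ Ω ⊔ k⟮b⟯) {r : ℕ} (u : Fin r → K) (M : ℕ)
    (hM : ∀ g ∈ F.fixingSubgroup, ∀ h ∈ F.fixingSubgroup, ∀ i, (g ^ M) (h (u i)) = h (u i))
    {γ : Gal(K/k)} (hγF : γ ∈ F.fixingSubgroup) (hγΩ : γ ∈ Ω.fixingSubgroup) {ζ : k}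
    (hγb : (γ ^ M) b = algebraMap k K ζ * b) (hζ0 : ζ ≠ 0) (hζ1 : ζ ≠ 1) {c : k} (hc0 : c ≠ 0)
    (hc1 : c ≠ 1) :
    ∃ h ∈ (Ω ⊔ k⟮b⟯).fixingSubgroup, (∀ i, h (u i) = u i) ∧
      ∀ z : K, z ^ N = aeval b (rot c (1 + X : k[X]) * (1 + X) ^ (N - 1)) → h z ≠ z := by
  set R : k[X] := rot c (1 + X : k[X]) * (1 + X) ^ (N - 1) with hR
  obtain ⟨hR0, hRm⟩ := mult_aux₂ (N := N) hc0 hc1 hζ0 hζ1 hN
  obtain ⟨a, haΩ, hab, haz⟩ := exists_kummer_mover p (q := N) (by omega)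
    (fun a => Nat.Coprime.pow_right a hNp) Ω hb htop _ hR0 _ hRm
  have haT : a ∈ (Ω ⊔ k⟮b⟯).fixingSubgroup := by
    rw [fixingSubgroup_sup, Subgroup.mem_inf]
    exact ⟨haΩ, ALG.mem_fs_adjoin.2 (by rintro _ rfl; exact hab)⟩
  have haF : a ∈ F.fixingSubgroup := fixingSubgroup_antitone hF haT
  set g : Gal(K/k) := γ ^ M with hg
  have hgΩ : g ∈ Ω.fixingSubgroup := pow_mem hγΩ M
  have hgu : ∀ i, g (u i) = u i := fun i => hM γ hγF 1 (one_mem _) i
  have hgau : ∀ i, g (a (u i)) = a (u i) := fun i => hM γ hγF a haF i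
  refine ⟨a⁻¹ * g⁻¹ * a * g, ?_, ?_, ?_⟩
  · rw [fixingSubgroup_sup, Subgroup.mem_inf]
    refine ⟨mul_mem (mul_mem (mul_mem (inv_mem haΩ) (inv_mem hgΩ)) haΩ) hgΩ, ?_⟩
    rw [ALG.mem_fs_adjoin]
    rintro _ rfl
    change a⁻¹ (g⁻¹ (a (g _))) = _
    rw [hγb, map_mul, AlgEquiv.commutes, hab, PX.inv_apply_eq hγb, PX.inv_apply_of_fix hab]
  · intro i
    change a⁻¹ (g⁻¹ (a (g _))) = _
    rw [hgu, PX.inv_apply_of_fix (hgau i)]
    exact PX.inv_apply_eq rfl
  · intro z hz hcon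
    have h1 : a (g z) = g (a z) := by
      have h2 : a⁻¹ (g⁻¹ (a (g z))) = z := hcon
      have h3 := congrArg a h2
      rw [PX.apply_inv] at h3
      have h4 := congrArg g h3
      rwa [PX.apply_inv] at h4
    have hzN : a (z ^ N) = z ^ N := by
      rw [hz]
      have h2 : aeval b R ∈ Ω ⊔ k⟮b⟯ :=
        (le_sup_right : k⟮b⟯ ≤ _) (ALG.aeval_mem_simple b R)
      exact ALG.mem_fs.1 haT _ h2
    obtain ⟨χ, hχ⟩ := ALG.exists_algebraMap_of_pow (k := k) (a := a z) (b := z) N (by omega)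
      (by rw [← map_pow, hzN])
    have h2 : a (g z) = algebraMap k K χ * g z := by
      rw [h1, hχ, map_mul, AlgEquiv.commutes]
    have hgz : (g z) ^ N = aeval b (rot ζ R) := by
      rw [← map_pow, hz, aeval_rot, ← hγb]
      exact (aeval_algHom_apply (g : K →ₐ[k] K) b R).symm
    refine haz (g z * z ^ (N - 1)) ?_ ?_
    · rw [map_mul, map_pow, ← hgz, ← hz, mul_pow, ← pow_mul, ← pow_mul, mul_comm N (N - 1)]
    · rw [map_mul, map_pow, h2, hχ, mul_pow]
      have h3 : algebraMap k K χ * g z * ((algebraMap k K χ) ^ (N - 1) * z ^ (N - 1)) =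
          (algebraMap k K χ) ^ N * (g z * z ^ (N - 1)) := by
        have h4 : (algebraMap k K χ) ^ N = algebraMap k K χ * (algebraMap k K χ) ^ (N - 1) := by
          rw [← pow_succ']; congr 1; omega
        rw [h4]; ring
      rw [h3]
      by_cases hz0 : z = 0
      · rw [hz0, zero_pow (by omega), mul_zero, mul_zero]
      · have h5 : (algebraMap k K χ) ^ N = 1 := by
          have h6 : (a z) ^ N = z ^ N := by rw [← map_pow, hzN]
          rw [hχ, mul_pow] at h6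
          exact mul_right_cancel₀ (pow_ne_zero N hz0) (by rw [h6, one_mul])
        rw [h5, one_mul]

end RS
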