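import Pool.Agent.H20.RT.Mov

/-!
The mover of `Mov.lean` in the case `N = 2`.
-/

set_option linter.style.haveILetI false

namespace RS

open Polynomial IntermediateField

variable {k K : Type*} [Field k] [Field K] [Algebra k K]

theorem rootMultiplicity_prod_range {M : ℕ} {f : ℕ → k[X]} (hf : ∀ l, f l ≠ 0) (a : k) :
    rootMultiplicity a (∏ l ∈ Finset.range M, f l) =
      ∑ l ∈ Finset.range M, rootMultiplicity a (f l) := by
  induction M with
  | zero =>
    rw [Finset.prod_range_zero, Finset.sum_range_zero]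
    exact rootMultiplicity_eq_zero (by simp [IsRoot])
  | succ M ih =>
    rw [Finset.prod_range_succ, Finset.sum_range_succ, rootMultiplicity_mul, ih]
    exact mul_ne_zero (Finset.prod_ne_zero_iff.2 (fun l _ => hf l)) (hf M)

/-- the mover, from the norm of `R` -/
theorem exists_h_norm [IsAlgClosed k] [IsAlgClosed K] (p : ℕ) [ExpChar k p] {N : ℕ} (hN : 1 ≤ N)
    (hNp : Nat.Coprime N p) (F Ω : IntermediateField k K) {b : K} (hb : b ∉ ALG.ac Ω)
    (htop : ALG.ac (Ω ⊔ k⟮b⟯) = ⊤) (hF : F ≤ Ω ⊔ k⟮b⟯) {r : ℕ} (u : Fin r → K) (M : ℕ)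
    (hM0 : 1 ≤ M) (hM : ∀ g ∈ F.fixingSubgroup, ∀ i, (g ^ M) (u i) = u i)
    {γ : Gal(K/k)} (hγF : γ ∈ F.fixingSubgroup) (hγΩ : γ ∈ Ω.fixingSubgroup) {ζ : k}
    (hγb : γ b = algebraMap k K ζ * b) (hζ0 : ζ ≠ 0) (R : k[X]) (hR0 : R ≠ 0) (a₀ : k)
    (hRm : ¬ N ∣ ∑ l ∈ Finset.range M, rootMultiplicity (ζ ^ l * a₀) R) :
    ∃ h ∈ (Ω ⊔ k⟮b⟯).fixingSubgroup, (∀ i, h (u i) = u i) ∧
      ∀ z : K, z ^ N = aeval b R → h z ≠ z := by
  have hζl : ∀ l : ℕ, ζ ^ l ≠ 0 := fun l => pow_ne_zero l hζ0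
  have hP0 : ∏ l ∈ Finset.range M, rot (ζ ^ l) R ≠ 0 :=
    Finset.prod_ne_zero_iff.2 (fun l _ => rot_ne_zero (hζl l) hR0)
  have hPm : ¬ N ∣ rootMultiplicity a₀ (∏ l ∈ Finset.range M, rot (ζ ^ l) R) := by
    rw [rootMultiplicity_prod_range (f := fun l => rot (ζ ^ l) R)
      (fun l => rot_ne_zero (hζl l) hR0)]
    have h1 : ∑ l ∈ Finset.range M, rootMultiplicity a₀ (rot (ζ ^ l) R) =
        ∑ l ∈ Finset.range M, rootMultiplicity (ζ ^ l * a₀) R :=
      Finset.sum_congr rfl (fun l _ => mult_rot (hζl l) R a₀)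
    rw [h1]
    exact hRm
  obtain ⟨a, haΩ, hab, haz⟩ := exists_kummer_mover p (q := N) hN
    (fun a => Nat.Coprime.pow_right a hNp) Ω hb htop _ hP0 _ hPm
  have haT : a ∈ (Ω ⊔ k⟮b⟯).fixingSubgroup := by
    rw [fixingSubgroup_sup, Subgroup.mem_inf]
    exact ⟨haΩ, ALG.mem_fs_adjoin.2 (by rintro _ rfl; exact hab)⟩
  have haF : a ∈ F.fixingSubgroup := fixingSubgroup_antitone hF haT
  have hγl : ∀ l : ℕ, (γ ^ l) b = algebraMap k K (ζ ^ l) * b := by
    intro l
    induction l with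
    | zero => simp
    | succ l ih =>
      rw [pow_succ', AlgEquiv.mul_apply, ih, map_mul, AlgEquiv.commutes, hγb, pow_succ, map_mul]
      ring
  have hγal : ∀ l : ℕ, ((γ * a) ^ l) b = algebraMap k K (ζ ^ l) * b := by
    intro l
    induction l with
    | zero => simp
    | succ l ih =>
      rw [pow_succ', AlgEquiv.mul_apply, ih, map_mul, AlgEquiv.commutes, AlgEquiv.mul_apply, hab,
        hγb, pow_succ, map_mul]
      ring
  refine ⟨(γ ^ M)⁻¹ * (γ * a) ^ M, ?_, ?_, ?_⟩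
  · rw [fixingSubgroup_sup, Subgroup.mem_inf]
    refine ⟨mul_mem (inv_mem (pow_mem hγΩ M)) (pow_mem (mul_mem hγΩ haΩ) M), ?_⟩
    rw [ALG.mem_fs_adjoin]
    rintro _ rfl
    change (γ ^ M)⁻¹ (((γ * a) ^ M) _) = _
    rw [hγal, PX.inv_apply_eq (hγl M)]
  · intro i
    change (γ ^ M)⁻¹ (((γ * a) ^ M) _) = _
    rw [hM (γ * a) (mul_mem hγF haF) i]
    exact PX.inv_apply_of_fix (hM γ hγF i)
  · intro z hz hcon
    have hzl : ∀ l : ℕ, ((γ ^ l) z) ^ N = aeval b (rot (ζ ^ l) R) := by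
      intro l
      rw [← map_pow, hz, aeval_rot, ← hγl]
      exact (aeval_algHom_apply ((γ ^ l : Gal(K/k)) : K →ₐ[k] K) b R).symm
    have hazl : ∀ l : ℕ, ∃ χ : k, a ((γ ^ l) z) = algebraMap k K χ * (γ ^ l) z := by
      intro l
      apply ALG.exists_algebraMap_of_pow N hN
      rw [← map_pow, hzl]
      have h2 : aeval b (rot (ζ ^ l) R) ∈ Ω ⊔ k⟮b⟯ :=
        (le_sup_right : k⟮b⟯ ≤ _) (ALG.aeval_mem_simple b _)
      exact ALG.mem_fs.1 haT _ h2
    choose χ hχ using hazl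
    have hprod : ∀ L : ℕ, ((γ * a) ^ L) z =
        algebraMap k K (∏ l ∈ Finset.range L, χ l) * (γ ^ L) z := by
      intro L
      induction L with
      | zero => simp
      | succ L ih =>
        rw [pow_succ', AlgEquiv.mul_apply, ih, map_mul, AlgEquiv.commutes, AlgEquiv.mul_apply, hχ,
          map_mul, AlgEquiv.commutes, Finset.prod_range_succ, map_mul, pow_succ',
          AlgEquiv.mul_apply]
        ring
    have hhz : algebraMap k K (∏ l ∈ Finset.range M, χ l) * z = z := by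
      have h1 : (γ ^ M)⁻¹ (((γ * a) ^ M) z) = z := hcon
      rw [hprod, map_mul, AlgEquiv.commutes] at h1
      have h2 : (γ ^ M)⁻¹ ((γ ^ M) z) = z := PX.inv_apply_eq rfl
      rwa [h2] at h1
    refine haz (∏ l ∈ Finset.range M, (γ ^ l) z) ?_ ?_
    · rw [← Finset.prod_pow, map_prod]
      exact Finset.prod_congr rfl (fun l _ => hzl l)
    · rw [map_prod, Finset.prod_congr rfl (fun l _ => hχ l), Finset.prod_mul_distrib, ← map_prod]
      by_cases hz0 : z = 0
      · have h1 : ∏ l ∈ Finset.range M, (γ ^ l) z = 0 := by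
          apply Finset.prod_eq_zero (i := 0) (Finset.mem_range.2 (by omega))
          rw [hz0, map_zero]
        rw [h1, mul_zero]
      · have h1 : algebraMap k K (∏ l ∈ Finset.range M, χ l) = 1 :=
          mul_right_cancel₀ hz0 (by rw [hhz, one_mul])
        rw [h1, one_mul]

/-- the multiplicities of `1 - X ^ 2` along the powers of a primitive `2 ^ (s + 1)`-th root of
unity -/
theorem mult_two {s e : ℕ} (h2 : (2 : k) ≠ 0) {ζ : k} (hζ : IsPrimitiveRoot ζ (2 ^ (s + 1))) :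
    ∑ l ∈ Finset.range (e * 2 ^ s),
      rootMultiplicity (ζ ^ l * 1) (rot (-1) (1 + X : k[X]) * (1 + X) ^ (2 - 1)) = e := by
  classical
  have hm1 : (-1 : k) ≠ 0 := neg_ne_zero.2 one_ne_zero
  have h1 : (1 + X : k[X]) ≠ 0 := one_add_X_ne
  have hR0 : rot (-1) (1 + X : k[X]) * (1 + X) ^ (2 - 1) ≠ 0 :=
    mul_ne_zero (rot_ne_zero hm1 h1) (pow_ne_zero _ h1)
  have h11 : (1 : k) ≠ -1 := by
    intro h
    apply h2
    linear_combination h
  have hterm : ∀ l : ℕ,
      rootMultiplicity (ζ ^ l * 1) (rot (-1) (1 + X : k[X]) * (1 + X) ^ (2 - 1)) =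
        if 2 ^ s ∣ l then 1 else 0 := by
    intro l
    rw [mul_one, rootMultiplicity_mul hR0, mult_rot hm1, mult_pow h1, mult_one_add_X',
      mult_one_add_X']
    have h3 : 2 ^ s ∣ l ↔ (ζ ^ l = 1 ∨ ζ ^ l = -1) := by
      rw [← sq_eq_one_iff, ← pow_mul, hζ.pow_eq_one_iff_dvd, pow_succ]
      exact (Nat.mul_dvd_mul_iff_right (by norm_num)).symm
    have h4 : (-1 : k) * ζ ^ l = -1 ↔ ζ ^ l = 1 := by
      constructor
      · intro h; linear_combination -h
      · intro h; rw [h]; ring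
    by_cases ha : ζ ^ l = 1
    · rw [if_pos (h4.2 ha), if_neg (by rw [ha]; exact h11), if_pos (h3.2 (Or.inl ha))]
    · by_cases hb : ζ ^ l = -1
      · rw [if_neg (fun h => ha (h4.1 h)), if_pos hb, if_pos (h3.2 (Or.inr hb))]
      · rw [if_neg (fun h => ha (h4.1 h)), if_neg hb, if_neg]
        intro h
        rcases h3.1 h with h | h
        · exact ha h
        · exact hb h
  rw [Finset.sum_congr rfl (fun l _ => hterm l), ← Finset.card_filter]
  induction e with
  | zero => simp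
  | succ e ih =>
    have h5 : Finset.range ((e + 1) * 2 ^ s) =
        Finset.range (e * 2 ^ s) ∪ Finset.Ico (e * 2 ^ s) ((e + 1) * 2 ^ s) := by
      ext l
      simp only [Finset.mem_range, Finset.mem_union, Finset.mem_Ico]
      have : e * 2 ^ s ≤ (e + 1) * 2 ^ s := Nat.mul_le_mul_right _ (Nat.le_succ e)
      omega
    rw [h5, Finset.filter_union, Finset.card_union_of_disjoint, ih]
    · congr 1
      rw [Finset.card_eq_one]
      refine ⟨e * 2 ^ s, ?_⟩
      ext l
      simp only [Finset.mem_filter, Finset.mem_Ico, Finset.mem_singleton]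
      constructor
      · rintro ⟨⟨ha, hb⟩, t, rfl⟩
        have hpos : 0 < 2 ^ s := by positivity
        rw [mul_comm (2 ^ s) t] at ha hb ⊢
        have h6 : e ≤ t := Nat.le_of_mul_le_mul_right ha hpos
        have h7 : t < e + 1 := Nat.lt_of_mul_lt_mul_right hb
        have h8 : t = e := by omega
        rw [h8]
      · rintro rfl
        have hpos : 0 < 2 ^ s := by positivity
        refine ⟨⟨le_rfl, ?_⟩, Dvd.intro_left _ rfl⟩
        rw [add_mul, one_mul]
        omega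
    · rw [Finset.disjoint_left]
      intro l hl hl'
      rw [Finset.mem_filter, Finset.mem_range] at hl
      rw [Finset.mem_filter, Finset.mem_Ico] at hl'
      omega

end RS
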