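import Pool.Agent.H20.RS.SandI
import Pool.Agent.H20.RT.All

/-!
Towers above `comp D r`, for a stable field `D` with rotations of `W`.
-/

set_option linter.style.haveILetI false

namespace RS

open Polynomial IntermediateField

variable {k K : Type*} [Field k] [Field K] [Algebra k K]
variable {m n : ℕ} {x : Fin n → K} {y w : Fin m → K} (hmn : m ≤ n) {ℓ N : ℕ}

/-- SANDWICH: no tower over `comp D r` contains the root -/
theorem sandwich_stb [IsAlgClosed k] [IsAlgClosed K] (hx : IsTranscendenceBasis k x) {r : ℕ}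
    (hr1 : 1 ≤ r) (hr : r < m) {d q : ℕ} (hq : q.Prime) (hdq : d < q) (hq5 : 5 ≤ q) (hqN : q < N)
    (hN : N.Prime) (hNk : (N : k) ≠ 0) {D : IntermediateField k K} (hDI : Stb x D)
    (hy : ∀ j, y j ^ N = x (Fin.castLE hmn j)) (hw : ∀ j, w j ^ N = 1 + y j)
    (hrot : HasRot k D N r (∏ j, w j)) {j₀ j₁ : Fin m} (hj : j₁ ≠ j₀) :
    ∃ e : K, IsAlgebraic k⟮x (Fin.castLE hmn j₀) + ∏ j, w j⟯ e ∧
      ∀ L : IntermediateField k K, ALG.Tower d (comp D r) L → e ∉ L := by
  classical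
  obtain ⟨s, hs0, hsc⟩ : ∃ s : Finset k, (0 : k) ∉ s ∧ s.card = q - 2 := by
    have h1 : ({0}ᶜ : Set k).Infinite := (Set.finite_singleton (0 : k)).infinite_compl
    obtain ⟨s, hs1, hs2⟩ := h1.exists_subset_card_eq (q - 2)
    exact ⟨s, fun h => hs1 h rfl, hs2⟩
  have hs : s.Nonempty := by rw [← Finset.card_pos, hsc]; omega
  have hsq : s.card + 2 = q := by omega
  haveI := fT_galois s hs0 hs
  have hcop : Nat.Coprime (Module.finrank (RatFunc k) (fT s).SplittingField) N := by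
    refine Nat.Coprime.coprime_dvd_left (fT_finrank s hs0 hs) ?_
    rw [hsq, Nat.coprime_comm, Nat.Prime.coprime_iff_not_dvd hN]
    intro h
    exact absurd ((hN.dvd_factorial).1 h) (by omega)
  obtain ⟨⟨τ, hτ⟩, -⟩ := main_all (E := (fT s).SplittingField) hmn hx hr1 hr hN.two_le hNk hN
    hNk hcop hcop hy hw j₀
  obtain ⟨hMD, hgrp⟩ := main_comp_stb (E := (fT s).SplittingField) hmn hx hr1 hr hN.two_le hNk hN
    hNk hcop hcop hDI hrot hy hw j₀ τ hτ
  set t := x (Fin.castLE hmn j₀) + ∏ j, w j with ht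
  have htT : t ∈ comp D r := by
    rw [← hτ]
    exact (hMD _).2 ⟨RatFunc.X, rfl⟩
  have hperm := perm_roots (w := w) hmn hx s hs0 hs (by rw [hsq]; exact hq)
    (SplittingField.splits (fT s)) hN.one_le hN.one_le hy hw hj τ ht hτ hgrp
  -- the roots
  have htn : t ∉ ALG.ac (PX.Om k x (Fin.castLE hmn j₁)) := by
    rw [PX.ac_Om]
    intro h
    obtain ⟨hPn, -⟩ := P_notMem hmn hx hN.one_le hN.one_le hy hw j₁
    have hx0 : x (Fin.castLE hmn j₀) ∈ PX.Om k x (Fin.castLE hmn j₁) :=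
      PX.x_mem_Om (fun h => hj (Fin.castLE_injective hmn h).symm)
    have h3 := sub_mem h hx0
    rw [ht, add_sub_cancel_left] at h3
    exact hPn h3
  have hcard : Nat.card (ALG.RT s (comp D r) t htT) = q := by
    rw [← hsq, ← ALG.sym_card _ htn s hs0 hs]
    rfl
  haveI : Finite (ALG.RT s (comp D r) t htT) := ALG.RR_finite s t
  haveI : Fintype (ALG.RT s (comp D r) t htT) := Fintype.ofFinite _
  have h5 : 5 ≤ Nat.card (ALG.RT s (comp D r) t htT) := by rw [hcard]; omega
  have halt : alternatingGroup (ALG.RT s (comp D r) t htT) ≤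
      ((comp D r).fixingSubgroup.subgroupOf (comp D r).fixingSubgroup).map
        (ALG.piT s (comp D r) t htT) := by
    intro g _
    obtain ⟨σ, hσ, hσg⟩ := hperm g
    refine ⟨⟨σ, hσ⟩, Subgroup.mem_subgroupOf.2 hσ, Equiv.ext (fun e => Subtype.ext ?_)⟩
    exact hσg e
  obtain ⟨e⟩ : Nonempty (ALG.RT s (comp D r) t htT) :=
    Finite.card_pos_iff.1 (lt_of_lt_of_le (by norm_num) h5)
  obtain ⟨v, hv⟩ := exists_root_of_mem s (SplittingField.splits (fT s)) τ hτ e.2
  refine ⟨e, ?_, ?_⟩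
  · rw [← hv]
    exact isAlgebraic_tau τ (by rw [hτ]; exact mem_adjoin_simple_self k _) v
  · intro L hL
    have h1 := ALG.tower_keeps s (comp D r) t htT d _ le_rfl h5 (by rw [hcard]; exact hdq) halt hL
    exact ALG.notMem_of_alt s (comp D r) t htT h5 h1.2 e

end RS
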